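import Mathlib

/-!
# Asymptotics of the spherical certificate with harmonic kernels

From the finite inequality to the exponent `g κ - g μ`.
-/

set_option autoImplicit false

namespace Pool.Agent.Lib.MP_b2bfca_co

open Finset Filter Topology

/-- The entropy function `(1+t) log (1+t) - t log t`. -/
noncomputable def gS (t : ℝ) : ℝ := (1 + t) * Real.log (1 + t) - t * Real.log t

/-- The level `2(κ-μ)(κ+μ+1)/((1+2κ) √(κ(1+κ)))`. -/
noncomputable def lvS (κ μ : ℝ) : ℝ :=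
  2 * ((κ - μ) * (κ + μ + 1)) / ((1 + 2 * κ) * Real.sqrt (κ * (1 + κ)))

/-- Coefficient of `w j` in the window inequality at `j + 1`. -/
noncomputable def alS (n m j : ℕ) : ℝ :=
  ((j : ℝ) + 1) * ((n : ℝ) + 2 * m + j - 2) / (((n : ℝ) + 2 * ((m : ℝ) + j) - 2) * ((m : ℝ) + j + 1))

/-- Coefficient of `w j` in the window inequality at `j - 1`. -/
noncomputable def beS (n m j : ℕ) : ℝ :=
  (j : ℝ) * ((n : ℝ) + 2 * m + j - 3) / (((n : ℝ) + 2 * ((m : ℝ) + j) - 2) * ((n : ℝ) + m + j - 3))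

/-! ### Entropy bounds for binomial coefficients -/

theorem gS_eq {n k : ℕ} (hn : 0 < n) :
    (n : ℝ) * gS ((k : ℝ) / n) =
      ((n : ℝ) + k) * Real.log ((n : ℝ) + k) - n * Real.log n - k * Real.log k := by
  have hn0 : (0 : ℝ) < n := by exact_mod_cast hn
  have h1 : 1 + (k : ℝ) / n = ((n : ℝ) + k) / n := by field_simp
  rcases Nat.eq_zero_or_pos k with rfl | hk
  · simp [gS]
  · have hk0 : (0 : ℝ) < k := by exact_mod_cast hk
    rw [gS, h1, Real.log_div (by positivity) hn0.ne', Real.log_div hk0.ne' hn0.ne']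
    field_simp
    ring

theorem choose_le_exp {n k : ℕ} (hn : 0 < n) :
    (((n + k).choose k : ℕ) : ℝ) ≤ Real.exp (n * gS ((k : ℝ) / n)) := by
  have hn0 : (0 : ℝ) < n := by exact_mod_cast hn
  rw [gS_eq hn]
  rcases Nat.eq_zero_or_pos k with rfl | hk
  · simp
  · have hk0 : (0 : ℝ) < k := by exact_mod_cast hk
    have h1 : (k : ℝ) ^ k * (n : ℝ) ^ n * (((n + k).choose k : ℕ) : ℝ) ≤ ((n : ℝ) + k) ^ (n + k) := by
      have h2 := add_pow (k : ℝ) (n : ℝ) (n + k)
      rw [add_comm (k : ℝ) n] at h2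
      rw [h2]
      have h3 := Finset.single_le_sum (f := fun i => (k : ℝ) ^ i * (n : ℝ) ^ (n + k - i) *
        (((n + k).choose i : ℕ) : ℝ)) (s := Finset.range (n + k + 1)) (fun i _ => by positivity)
        (show k ∈ Finset.range (n + k + 1) by rw [Finset.mem_range]; omega)
      have h4 : n + k - k = n := by omega
      simp only [h4] at h3
      exact h3
    have h5 : Real.exp (((n : ℝ) + k) * Real.log ((n : ℝ) + k) - n * Real.log n - k * Real.log k) =
        ((n : ℝ) + k) ^ (n + k) / ((n : ℝ) ^ n * (k : ℝ) ^ k) := by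
      rw [Real.exp_sub, Real.exp_sub, mul_comm ((n : ℝ) + k), mul_comm (n : ℝ), mul_comm (k : ℝ),
        Real.exp_mul, Real.exp_mul, Real.exp_mul, Real.exp_log (by positivity), Real.exp_log hn0,
        Real.exp_log hk0]
      rw [show ((n : ℝ) + k) = ((n + k : ℕ) : ℝ) by push_cast; ring, Real.rpow_natCast,
        Real.rpow_natCast, Real.rpow_natCast, div_div]
    rw [h5, le_div_iff₀ (by positivity)]
    calc _ = (k : ℝ) ^ k * (n : ℝ) ^ n * (((n + k).choose k : ℕ) : ℝ) := by ring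
      _ ≤ _ := h1

/-- `x ↦ (x+1) log (1 + 1/x)` is decreasing: the one step form. -/
theorem log_step {x y : ℝ} (hx : 0 < x) (hxy : x ≤ y) :
    (y + 1) * Real.log (1 + 1 / y) ≤ (x + 1) * Real.log (1 + 1 / x) := by
  have hanti : AntitoneOn (fun t : ℝ => (t + 1) * Real.log (1 + 1 / t)) (Set.Ioi 0) := by
    apply antitoneOn_of_deriv_nonpos (convex_Ioi 0)
    · apply ContinuousOn.mul (by fun_prop)
      apply ContinuousOn.log
      · apply ContinuousOn.add continuousOn_const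
        apply ContinuousOn.div continuousOn_const continuousOn_id
        intro t ht
        exact (ne_of_gt ht)
      · intro t ht
        have : 0 < 1 / t := one_div_pos.mpr ht
        positivity
    · intro t ht
      rw [interior_Ioi] at ht
      have ht0 : (0 : ℝ) < t := ht
      have h1 : (1 + 1 / t) ≠ 0 := by positivity
      apply DifferentiableAt.differentiableWithinAt
      have hd1 : HasDerivAt (fun t : ℝ => 1 + 1 / t) (-(t ^ 2)⁻¹) t := by
        have := (hasDerivAt_inv ht0.ne').const_add 1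
        simpa [one_div] using this
      exact (((hasDerivAt_id t).add_const 1).mul (hd1.log h1)).differentiableAt
    · intro t ht
      rw [interior_Ioi] at ht
      have ht0 : (0 : ℝ) < t := ht
      have h1 : (1 + 1 / t) ≠ 0 := by positivity
      have hd1 : HasDerivAt (fun t : ℝ => 1 + 1 / t) (-(t ^ 2)⁻¹) t := by
        have := (hasDerivAt_inv ht0.ne').const_add 1
        simpa [one_div] using this
      have hd2 := hd1.log h1
      have hd3 := ((hasDerivAt_id t).add_const 1).mul hd2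
      have hd4 : HasDerivAt (fun t : ℝ => (t + 1) * Real.log (1 + 1 / t))
        (1 * Real.log (1 + 1 / t) + (t + 1) * (-(t ^ 2)⁻¹ / (1 + 1 / t))) t := hd3
      rw [hd4.deriv]
      have h2 : Real.log (1 + 1 / t) ≤ 1 / t := by
        have := Real.log_le_sub_one_of_pos (show 0 < 1 + 1 / t by positivity)
        linarith
      have h3 : (t + 1) * (-(t ^ 2)⁻¹ / (1 + 1 / t)) = -(1 / t) := by
        field_simp
      rw [h3]
      linarith
  exact hanti hx (lt_of_lt_of_le hx hxy) hxy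

theorem le_log_choose (n k : ℕ) :
    ((n : ℝ) + k + 1) * Real.log ((n : ℝ) + k + 1) - ((n : ℝ) + 1) * Real.log ((n : ℝ) + 1)
        - ((k : ℝ) + 1) * Real.log ((k : ℝ) + 1) ≤ Real.log (((n + k).choose k : ℕ) : ℝ) := by
  induction k with
  | zero => simp
  | succ k ih =>
    have h1 : (((n + (k + 1)).choose (k + 1) : ℕ) : ℝ) =
        (((n + k).choose k : ℕ) : ℝ) * (((n : ℝ) + k + 1) / ((k : ℝ) + 1)) := by
      have h2 := Nat.add_one_mul_choose_eq (n + k) k
      have h3 : ((n : ℝ) + k + 1) * (((n + k).choose k : ℕ) : ℝ) =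
          (((n + k + 1).choose (k + 1) : ℕ) : ℝ) * ((k : ℝ) + 1) := by
        exact_mod_cast h2
      have h4 : n + (k + 1) = n + k + 1 := by ring
      rw [h4]
      field_simp
      linarith
    have hc : (0 : ℝ) < (((n + k).choose k : ℕ) : ℝ) := by
      exact_mod_cast Nat.choose_pos (by omega)
    have hk : (0 : ℝ) < (k : ℝ) + 1 := by positivity
    have hnk : (0 : ℝ) < (n : ℝ) + k + 1 := by positivity
    rw [h1, Real.log_mul hc.ne' (by positivity), Real.log_div hnk.ne' hk.ne']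
    have h5 := log_step hk (show (k : ℝ) + 1 ≤ (n : ℝ) + k + 1 by
      have : (0 : ℝ) ≤ n := Nat.cast_nonneg n
      linarith)
    have h6 : 1 + 1 / ((n : ℝ) + k + 1) = ((n : ℝ) + k + 2) / ((n : ℝ) + k + 1) := by
      field_simp; ring
    have h7 : 1 + 1 / ((k : ℝ) + 1) = ((k : ℝ) + 2) / ((k : ℝ) + 1) := by
      field_simp; ring
    rw [h6, h7, Real.log_div (by positivity) hnk.ne', Real.log_div (by positivity) hk.ne'] at h5
    push_cast
    have e1 : (n : ℝ) + ((k : ℝ) + 1) + 1 = (n : ℝ) + k + 2 := by ring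
    have e2 : (k : ℝ) + 1 + 1 = (k : ℝ) + 2 := by ring
    rw [e1, e2]
    have e3 : ((n : ℝ) + k + 1 + 1) = (n : ℝ) + k + 2 := by ring
    rw [e2, e3] at h5
    nlinarith [h5, ih]

/-! ### Limits -/

theorem gS_continuous : Continuous gS := by
  unfold gS
  have h := Real.continuous_mul_log
  exact (h.comp (continuous_const.add continuous_id)).sub h

section Limits

variable {κ μ : ℝ}

/-- Degree of the harmonic type. -/
noncomputable def mF (μ : ℝ) (n : ℕ) : ℕ := ⌊μ * n⌋₊ + 1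

/-- First index of the window. -/
noncomputable def jF (κ μ : ℝ) (n : ℕ) : ℕ := ⌊κ * n⌋₊ + 1 - mF μ n

theorem tendsto_floor {c : ℝ} (hc : 0 ≤ c) :
    Tendsto (fun n : ℕ => ((⌊c * n⌋₊ : ℕ) : ℝ) / n) atTop (𝓝 c) := by
  have h1 := tendsto_nat_floor_mul_div_atTop hc
  exact h1.comp tendsto_natCast_atTop_atTop

theorem tendsto_const_div (c : ℝ) : Tendsto (fun n : ℕ => c / (n : ℝ)) atTop (𝓝 0) :=
  tendsto_const_nhds.div_atTop tendsto_natCast_atTop_atTop

theorem tendsto_mF (hμ : 0 ≤ μ) : Tendsto (fun n : ℕ => ((mF μ n : ℕ) : ℝ) / n) atTop (𝓝 μ) := by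
  have h1 := (tendsto_floor hμ).add (tendsto_const_div 1)
  rw [add_zero] at h1
  refine h1.congr fun n => ?_
  simp only [mF]
  push_cast
  ring

theorem jF_eventually (hμ : 0 ≤ μ) (h : μ < κ) :
    ∀ᶠ n : ℕ in atTop, mF μ n < ⌊κ * n⌋₊ ∧
      ((jF κ μ n : ℕ) : ℝ) = (⌊κ * n⌋₊ : ℕ) + 1 - (mF μ n : ℕ) := by
  have h1 := tendsto_mF hμ
  have h2 := tendsto_floor (hμ.trans h.le)
  have h3 : ∀ᶠ n : ℕ in atTop, ((mF μ n : ℕ) : ℝ) / n < ((⌊κ * n⌋₊ : ℕ) : ℝ) / n :=
    h1.eventually_lt h2 h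
  filter_upwards [h3, eventually_gt_atTop 0] with n hn hn0
  have hn0' : (0 : ℝ) < n := by exact_mod_cast hn0
  rw [div_lt_div_iff_of_pos_right hn0'] at hn
  have h4 : mF μ n < ⌊κ * n⌋₊ := by exact_mod_cast hn
  refine ⟨h4, ?_⟩
  rw [jF, Nat.cast_sub (by omega)]
  push_cast
  ring

theorem tendsto_jF (hμ : 0 ≤ μ) (h : μ < κ) :
    Tendsto (fun n : ℕ => ((jF κ μ n : ℕ) : ℝ) / n) atTop (𝓝 (κ - μ)) := by
  have h1 := ((tendsto_floor (hμ.trans h.le)).add (tendsto_const_div 1)).sub (tendsto_mF hμ)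
  rw [add_zero] at h1
  refine h1.congr' ?_
  filter_upwards [jF_eventually hμ h] with n hn
  rw [hn.2]
  ring

/-- The limits of the coefficients. -/
noncomputable def limA (κ μ : ℝ) : ℝ := (κ - μ) * (κ + μ + 1) / ((1 + 2 * κ) * κ)

/-- The limits of the coefficients. -/
noncomputable def limB (κ μ : ℝ) : ℝ := (κ - μ) * (κ + μ + 1) / ((1 + 2 * κ) * (1 + κ))

theorem tendsto_alS (hμ : 0 ≤ μ) (h : μ < κ) (c : ℝ) (f : ℕ → ℕ)
    (hf : ∀ᶠ n : ℕ in atTop, ((f n : ℕ) : ℝ) = (jF κ μ n : ℕ) + c) :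
    Tendsto (fun n : ℕ => alS n (mF μ n) (f n)) atTop (𝓝 (limA κ μ)) := by
  have hκ : 0 < κ := lt_of_le_of_lt hμ h
  have hj := tendsto_jF hμ h
  have hm := tendsto_mF hμ
  have hF : Tendsto (fun n : ℕ => (((jF κ μ n : ℕ) : ℝ) / n + (c + 1) / n) *
      (1 + 2 * (((mF μ n : ℕ) : ℝ) / n) + ((jF κ μ n : ℕ) : ℝ) / n + (c - 2) / n) /
      ((1 + 2 * ((((mF μ n : ℕ) : ℝ) / n) + ((jF κ μ n : ℕ) : ℝ) / n) + (2 * c - 2) / n) *
        ((((mF μ n : ℕ) : ℝ) / n) + ((jF κ μ n : ℕ) : ℝ) / n + (c + 1) / n)))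
      atTop (𝓝 (((κ - μ) + 0) * (1 + 2 * μ + (κ - μ) + 0) /
        ((1 + 2 * (μ + (κ - μ)) + 0) * (μ + (κ - μ) + 0)))) := by
    apply Tendsto.div
    · exact (hj.add (tendsto_const_div _)).mul
        (((tendsto_const_nhds.add (hm.const_mul 2)).add hj).add (tendsto_const_div _))
    · exact ((tendsto_const_nhds.add ((hm.add hj).const_mul 2)).add (tendsto_const_div _)).mul
        ((hm.add hj).add (tendsto_const_div _))
    · have h1 : (1 + 2 * (μ + (κ - μ)) + 0) * (μ + (κ - μ) + 0) = (1 + 2 * κ) * κ := by ring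
      rw [h1]
      positivity
  have hlim : ((κ - μ) + 0) * (1 + 2 * μ + (κ - μ) + 0) /
        ((1 + 2 * (μ + (κ - μ)) + 0) * (μ + (κ - μ) + 0)) = limA κ μ := by
    rw [limA]
    congr 1 <;> ring
  rw [hlim] at hF
  refine hF.congr' ?_
  filter_upwards [hf, eventually_gt_atTop 0] with n hn hn0
  have hn0' : (n : ℝ) ≠ 0 := by exact_mod_cast hn0.ne'
  rw [alS, hn]
  have e1 : ((jF κ μ n : ℕ) : ℝ) / n + (c + 1) / n = (((jF κ μ n : ℕ) : ℝ) + c + 1) / n := by ring
  have e2 : 1 + 2 * (((mF μ n : ℕ) : ℝ) / n) + ((jF κ μ n : ℕ) : ℝ) / n + (c - 2) / n =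
      ((n : ℝ) + 2 * (mF μ n : ℕ) + ((jF κ μ n : ℕ) + c) - 2) / n := by
    field_simp; ring
  have e3 : 1 + 2 * ((((mF μ n : ℕ) : ℝ) / n) + ((jF κ μ n : ℕ) : ℝ) / n) + (2 * c - 2) / n =
      ((n : ℝ) + 2 * ((mF μ n : ℕ) + ((jF κ μ n : ℕ) + c)) - 2) / n := by
    field_simp; ring
  have e4 : (((mF μ n : ℕ) : ℝ) / n) + ((jF κ μ n : ℕ) : ℝ) / n + (c + 1) / n =
      (((mF μ n : ℕ) : ℝ) + ((jF κ μ n : ℕ) + c) + 1) / n := by ring
  rw [e1, e2, e3, e4, div_mul_div_comm, div_mul_div_comm,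
    div_div_div_cancel_right₀ (mul_ne_zero hn0' hn0')]

theorem tendsto_beS (hμ : 0 ≤ μ) (h : μ < κ) (c : ℝ) (f : ℕ → ℕ)
    (hf : ∀ᶠ n : ℕ in atTop, ((f n : ℕ) : ℝ) = (jF κ μ n : ℕ) + c) :
    Tendsto (fun n : ℕ => beS n (mF μ n) (f n)) atTop (𝓝 (limB κ μ)) := by
  have hκ : 0 < κ := lt_of_le_of_lt hμ h
  have hj := tendsto_jF hμ h
  have hm := tendsto_mF hμ
  have hF : Tendsto (fun n : ℕ => (((jF κ μ n : ℕ) : ℝ) / n + c / n) *
      (1 + 2 * (((mF μ n : ℕ) : ℝ) / n) + ((jF κ μ n : ℕ) : ℝ) / n + (c - 3) / n) /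
      ((1 + 2 * ((((mF μ n : ℕ) : ℝ) / n) + ((jF κ μ n : ℕ) : ℝ) / n) + (2 * c - 2) / n) *
        (1 + (((mF μ n : ℕ) : ℝ) / n) + ((jF κ μ n : ℕ) : ℝ) / n + (c - 3) / n)))
      atTop (𝓝 (((κ - μ) + 0) * (1 + 2 * μ + (κ - μ) + 0) /
        ((1 + 2 * (μ + (κ - μ)) + 0) * (1 + μ + (κ - μ) + 0)))) := by
    apply Tendsto.div
    · exact (hj.add (tendsto_const_div _)).mul
        (((tendsto_const_nhds.add (hm.const_mul 2)).add hj).add (tendsto_const_div _))
    · exact ((tendsto_const_nhds.add ((hm.add hj).const_mul 2)).add (tendsto_const_div _)).mul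
        (((tendsto_const_nhds.add hm).add hj).add (tendsto_const_div _))
    · have h1 : (1 + 2 * (μ + (κ - μ)) + 0) * (1 + μ + (κ - μ) + 0) = (1 + 2 * κ) * (1 + κ) := by
        ring
      rw [h1]
      positivity
  have hlim : ((κ - μ) + 0) * (1 + 2 * μ + (κ - μ) + 0) /
        ((1 + 2 * (μ + (κ - μ)) + 0) * (1 + μ + (κ - μ) + 0)) = limB κ μ := by
    rw [limB]
    congr 1 <;> ring
  rw [hlim] at hF
  refine hF.congr' ?_
  filter_upwards [hf, eventually_gt_atTop 0] with n hn hn0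
  have hn0' : (n : ℝ) ≠ 0 := by exact_mod_cast hn0.ne'
  rw [beS, hn]
  have e1 : ((jF κ μ n : ℕ) : ℝ) / n + c / n = (((jF κ μ n : ℕ) : ℝ) + c) / n := by ring
  have e2 : 1 + 2 * (((mF μ n : ℕ) : ℝ) / n) + ((jF κ μ n : ℕ) : ℝ) / n + (c - 3) / n =
      ((n : ℝ) + 2 * (mF μ n : ℕ) + ((jF κ μ n : ℕ) + c) - 3) / n := by
    field_simp; ring
  have e3 : 1 + 2 * ((((mF μ n : ℕ) : ℝ) / n) + ((jF κ μ n : ℕ) : ℝ) / n) + (2 * c - 2) / n =
      ((n : ℝ) + 2 * ((mF μ n : ℕ) + ((jF κ μ n : ℕ) + c)) - 2) / n := by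
    field_simp; ring
  have e4 : 1 + (((mF μ n : ℕ) : ℝ) / n) + ((jF κ μ n : ℕ) : ℝ) / n + (c - 3) / n =
      ((n : ℝ) + (mF μ n : ℕ) + ((jF κ μ n : ℕ) + c) - 3) / n := by
    field_simp; ring
  rw [e1, e2, e3, e4, div_mul_div_comm, div_mul_div_comm,
    div_div_div_cancel_right₀ (mul_ne_zero hn0' hn0')]

end Limits

/-! ### The window -/

/-- The window weights. -/
noncomputable def wS (ρ θ : ℝ) (r j0 j : ℕ) : ℝ :=
  if j0 ≤ j ∧ j < j0 + r then ρ ^ (j - j0) * Real.sin (θ * ((j - j0 : ℕ) + 1)) else 0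

theorem wS_in {ρ θ : ℝ} {r j0 i : ℕ} (hi : i < r) :
    wS ρ θ r j0 (j0 + i) = ρ ^ i * Real.sin (θ * ((i : ℝ) + 1)) := by
  rw [wS, if_pos ⟨by omega, by omega⟩, Nat.add_sub_cancel_left]

theorem wS_out {ρ θ : ℝ} {r j0 j : ℕ} (hi : ¬ (j0 ≤ j ∧ j < j0 + r)) : wS ρ θ r j0 j = 0 := by
  rw [wS, if_neg hi]

theorem sin_window_pos {r i : ℕ} (hi : i < r) :
    0 < Real.sin (Real.pi / ((r : ℝ) + 1) * ((i : ℝ) + 1)) := by
  have hr : (0 : ℝ) < (r : ℝ) + 1 := by positivity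
  apply Real.sin_pos_of_pos_of_lt_pi
  · have := Real.pi_pos
    positivity
  · rw [div_mul_eq_mul_div, div_lt_iff₀ hr]
    have h1 : (i : ℝ) + 1 < (r : ℝ) + 1 := by
      have : (i : ℝ) < r := by exact_mod_cast hi
      linarith
    exact mul_lt_mul_of_pos_left h1 Real.pi_pos

theorem wS_nonneg {ρ : ℝ} (hρ : 0 < ρ) {r j0 : ℕ} (j : ℕ) :
    0 ≤ wS ρ (Real.pi / ((r : ℝ) + 1)) r j0 j := by
  by_cases h : j0 ≤ j ∧ j < j0 + r
  · obtain ⟨i, rfl⟩ := Nat.exists_eq_add_of_le h.1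
    have hi : i < r := by omega
    rw [wS_in hi]
    exact mul_nonneg (by positivity) (sin_window_pos hi).le
  · rw [wS_out h]

theorem alS_nonneg {n m j : ℕ} (hn : 2 ≤ n) : 0 ≤ alS n m j := by
  have h : (2 : ℝ) ≤ n := by exact_mod_cast hn
  rw [alS]
  apply div_nonneg
  · apply mul_nonneg (by positivity)
    have : (0 : ℝ) ≤ m := Nat.cast_nonneg m
    have : (0 : ℝ) ≤ j := Nat.cast_nonneg j
    linarith
  · apply mul_nonneg _ (by positivity)
    have : (0 : ℝ) ≤ m := Nat.cast_nonneg m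
    have : (0 : ℝ) ≤ j := Nat.cast_nonneg j
    linarith

theorem beS_nonneg {n m j : ℕ} (hn : 3 ≤ n) : 0 ≤ beS n m j := by
  have h : (3 : ℝ) ≤ n := by exact_mod_cast hn
  have h1 : (0 : ℝ) ≤ m := Nat.cast_nonneg m
  have h2 : (0 : ℝ) ≤ j := Nat.cast_nonneg j
  rw [beS]
  apply div_nonneg
  · exact mul_nonneg h2 (by linarith)
  · exact mul_nonneg (by linarith) (by linarith)

/-- The window inequalities follow from lower bounds of the coefficients on the window. -/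
theorem window {n m r j0 : ℕ} {ρ q l : ℝ} (hn : 3 ≤ n) (hρ : 0 < ρ) (hq : 0 < q)
    (hj0 : 1 ≤ j0)
    (hl : l ≤ 2 * q * Real.cos (Real.pi / ((r : ℝ) + 1)))
    (hA : ∀ i ∈ Finset.range r, q * ρ ≤ alS n m (j0 + i - 1))
    (hB : ∀ i ∈ Finset.range r, q / ρ ≤ beS n m (j0 + i + 1)) (j : ℕ) :
    l * wS ρ (Real.pi / ((r : ℝ) + 1)) r j0 (j + 1) ≤
      alS n m j * wS ρ (Real.pi / ((r : ℝ) + 1)) r j0 j +
        beS n m (j + 2) * wS ρ (Real.pi / ((r : ℝ) + 1)) r j0 (j + 2) := by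
  set θ : ℝ := Real.pi / ((r : ℝ) + 1) with hθ
  have hr1 : (0 : ℝ) < (r : ℝ) + 1 := by positivity
  by_cases h : j0 ≤ j + 1 ∧ j + 1 < j0 + r
  · obtain ⟨i, hi'⟩ := Nat.exists_eq_add_of_le h.1
    have hi : i < r := by omega
    have hsin := sin_window_pos hi
    rw [← hθ] at hsin
    have e1 : wS ρ θ r j0 (j + 1) = ρ ^ i * Real.sin (θ * ((i : ℝ) + 1)) := by
      rw [hi', wS_in hi]
    have e2 : wS ρ θ r j0 j = ρ ^ i / ρ * Real.sin (θ * (i : ℝ)) := by
      rcases Nat.eq_zero_or_pos i with rfl | hi0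
      · rw [wS_out (by omega)]
        simp
      · obtain ⟨i', rfl⟩ := Nat.exists_eq_succ_of_ne_zero hi0.ne'
        have hj : j = j0 + i' := by omega
        rw [hj, wS_in (by omega)]
        push_cast
        rw [Nat.succ_eq_add_one, pow_succ, mul_div_assoc, div_self hρ.ne', mul_one]
    have e3 : wS ρ θ r j0 (j + 2) = ρ ^ i * ρ * Real.sin (θ * ((i : ℝ) + 2)) := by
      have hj : j + 2 = j0 + (i + 1) := by omega
      rcases Nat.lt_or_ge (i + 1) r with hi1 | hi1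
      · rw [hj, wS_in hi1, pow_succ]
        congr 2
        push_cast
        ring
      · have hir : i + 1 = r := by omega
        rw [wS_out (by omega)]
        have h1 : θ * ((i : ℝ) + 2) = Real.pi := by
          have : ((i : ℝ) + 2) = (r : ℝ) + 1 := by rw [← hir]; push_cast; ring
          rw [this, hθ]
          field_simp
        rw [h1, Real.sin_pi, mul_zero]
    rw [e1, e2, e3]
    have hAi := hA i (Finset.mem_range.mpr hi)
    have hBi := hB i (Finset.mem_range.mpr hi)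
    have hja : j0 + i - 1 = j := by omega
    have hjb : j0 + i + 1 = j + 2 := by omega
    rw [hja] at hAi
    rw [hjb] at hBi
    have hs0 : 0 ≤ Real.sin (θ * (i : ℝ)) := by
      rcases Nat.eq_zero_or_pos i with rfl | hi0
      · simp
      · obtain ⟨i', rfl⟩ := Nat.exists_eq_succ_of_ne_zero hi0.ne'
        have := sin_window_pos (show i' < r by omega)
        rw [← hθ] at this
        push_cast
        exact this.le
    have hs2 : 0 ≤ Real.sin (θ * ((i : ℝ) + 2)) := by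
      rcases Nat.lt_or_ge (i + 1) r with hi1 | hi1
      · have := sin_window_pos hi1
        rw [← hθ] at this
        push_cast at this
        have e : (i : ℝ) + 2 = (i : ℝ) + 1 + 1 := by ring
        rw [e]
        exact this.le
      · have hir : i + 1 = r := by omega
        have h1 : θ * ((i : ℝ) + 2) = Real.pi := by
          have : ((i : ℝ) + 2) = (r : ℝ) + 1 := by rw [← hir]; push_cast; ring
          rw [this, hθ]
          field_simp
        rw [h1, Real.sin_pi]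
    have htrig : Real.sin (θ * (i : ℝ)) + Real.sin (θ * ((i : ℝ) + 2)) =
        2 * Real.sin (θ * ((i : ℝ) + 1)) * Real.cos θ := by
      have a1 : θ * (i : ℝ) = θ * ((i : ℝ) + 1) - θ := by ring
      have a2 : θ * ((i : ℝ) + 2) = θ * ((i : ℝ) + 1) + θ := by ring
      rw [a1, a2, Real.sin_sub, Real.sin_add]
      ring
    have hρi : 0 < ρ ^ i := by positivity
    calc l * (ρ ^ i * Real.sin (θ * ((i : ℝ) + 1)))
        ≤ (2 * q * Real.cos θ) * (ρ ^ i * Real.sin (θ * ((i : ℝ) + 1))) :=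
          mul_le_mul_of_nonneg_right hl (mul_nonneg hρi.le hsin.le)
      _ = q * ρ ^ i * (2 * Real.sin (θ * ((i : ℝ) + 1)) * Real.cos θ) := by ring
      _ = q * ρ ^ i * (Real.sin (θ * (i : ℝ)) + Real.sin (θ * ((i : ℝ) + 2))) := by rw [htrig]
      _ = (q * ρ) * (ρ ^ i / ρ * Real.sin (θ * (i : ℝ))) +
          (q / ρ) * (ρ ^ i * ρ * Real.sin (θ * ((i : ℝ) + 2))) := by
          field_simp
      _ ≤ _ := by
          apply add_le_add
          · exact mul_le_mul_of_nonneg_right hAi (mul_nonneg (by positivity) hs0)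
          · exact mul_le_mul_of_nonneg_right hBi (mul_nonneg (by positivity) hs2)
  · rw [wS_out h, mul_zero]
    exact add_nonneg (mul_nonneg (alS_nonneg (by omega)) (wS_nonneg hρ _))
      (mul_nonneg (beS_nonneg hn) (wS_nonneg hρ _))

theorem window_zero {n m r j0 : ℕ} {ρ l : ℝ} (hn : 3 ≤ n) (hρ : 0 < ρ) (hj0 : 1 ≤ j0) :
    l * wS ρ (Real.pi / ((r : ℝ) + 1)) r j0 0 ≤
      beS n m 1 * wS ρ (Real.pi / ((r : ℝ) + 1)) r j0 1 := by
  rw [wS_out (by omega), mul_zero]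
  exact mul_nonneg (beS_nonneg hn) (wS_nonneg hρ _)

/-! ### Binomial asymptotics -/

theorem choose_diff_lower {n m : ℕ} (hn : 5 ≤ n) (hm : 1 ≤ m) (hmn : m < n) :
    (((n - 3 + m).choose m : ℕ) : ℝ) ≤
      (((n + m - 2).choose m : ℕ) : ℝ) - (((n + m - 3).choose (m - 2) : ℕ) : ℝ) := by
  obtain ⟨k, rfl⟩ : ∃ k, m = k + 1 := ⟨m - 1, by omega⟩
  have e1 : n + (k + 1) - 2 = (n - 3 + (k + 1)) + 1 := by omega
  have e2 : n + (k + 1) - 3 = n - 3 + (k + 1) := by omega
  have h1 := Nat.choose_succ_succ (n - 3 + (k + 1)) k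
  have h2 : (n - 3 + (k + 1)).choose (k + 1 - 2) ≤ (n - 3 + (k + 1)).choose k := by
    rcases Nat.eq_zero_or_pos k with rfl | hk
    · simp
    · obtain ⟨t, rfl⟩ : ∃ t, k = t + 1 := ⟨k - 1, by omega⟩
      have h3 : t + 1 + 1 - 2 = t := by omega
      rw [h3]
      apply Nat.choose_le_succ_of_lt_half_left
      omega
  rw [e1, e2]
  have h4 : (((n - 3 + (k + 1) + 1).choose (k + 1) : ℕ) : ℝ) =
      (((n - 3 + (k + 1)).choose k : ℕ) : ℝ) + (((n - 3 + (k + 1)).choose (k + 1) : ℕ) : ℝ) := by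
    exact_mod_cast h1
  have h5 : (((n - 3 + (k + 1)).choose (k + 1 - 2) : ℕ) : ℝ) ≤
      (((n - 3 + (k + 1)).choose k : ℕ) : ℝ) := by
    exact_mod_cast h2
  rw [h4]
  linarith

theorem mulLog_scale {n x : ℝ} (hn : 0 < n) (hx : 0 < x) :
    x * Real.log x / n = (x / n) * Real.log (x / n) + (x / n) * Real.log n := by
  rw [Real.log_div hx.ne' hn.ne']
  field_simp
  ring

theorem tendsto_log_div : Tendsto (fun n : ℕ => Real.log (n : ℝ) / (n : ℝ)) atTop (𝓝 0) := by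
  have h := Real.isLittleO_log_id_atTop.tendsto_div_nhds_zero
  exact h.comp tendsto_natCast_atTop_atTop

theorem choose_lower_eventually {μ ε : ℝ} (hμ : 0 ≤ μ) (hε : 0 < ε) :
    ∀ᶠ n : ℕ in atTop, Real.exp (n * (gS μ - ε)) ≤ (((n - 3 + mF μ n).choose (mF μ n) : ℕ) : ℝ) := by
  have hm := tendsto_mF hμ
  have hcont := Real.continuous_mul_log
  have hlim : Tendsto (fun n : ℕ =>
      ((1 + ((mF μ n : ℕ) : ℝ) / n + (-2) / n) * Real.log (1 + ((mF μ n : ℕ) : ℝ) / n + (-2) / n)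
        - (1 + (-2) / n) * Real.log (1 + (-2) / n)
        - (((mF μ n : ℕ) : ℝ) / n + 1 / n) * Real.log (((mF μ n : ℕ) : ℝ) / n + 1 / n))
        - Real.log (n : ℝ) / n) atTop
      (𝓝 (((1 + μ + 0) * Real.log (1 + μ + 0) - (1 + 0) * Real.log (1 + 0)
        - (μ + 0) * Real.log (μ + 0)) - 0)) := by
    apply Tendsto.sub _ tendsto_log_div
    apply Tendsto.sub
    · apply Tendsto.sub
      · exact (hcont.tendsto _).comp
          ((tendsto_const_nhds.add hm).add (tendsto_const_div (-2)))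
      · exact (hcont.tendsto _).comp (tendsto_const_nhds.add (tendsto_const_div (-2)))
    · exact (hcont.tendsto _).comp (hm.add (tendsto_const_div 1))
  have hval : (((1 + μ + 0) * Real.log (1 + μ + 0) - (1 + 0) * Real.log (1 + 0)
        - (μ + 0) * Real.log (μ + 0)) - 0) = gS μ := by
    simp [gS]
  rw [hval] at hlim
  have hev := hlim.eventually_const_le (show gS μ - ε < gS μ by linarith)
  filter_upwards [hev, eventually_ge_atTop 5] with n hn h5
  have hn5 : (5 : ℝ) ≤ n := by exact_mod_cast h5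
  have hn0 : (0 : ℝ) < n := by linarith
  have hmpos : (0 : ℝ) ≤ ((mF μ n : ℕ) : ℝ) := Nat.cast_nonneg _
  have hc : (0 : ℝ) < (((n - 3 + mF μ n).choose (mF μ n) : ℕ) : ℝ) := by
    exact_mod_cast Nat.choose_pos (by omega)
  rw [← Real.le_log_iff_exp_le hc]
  have h1 := le_log_choose (n - 3) (mF μ n)
  refine le_trans ?_ h1
  have e0 : ((n - 3 : ℕ) : ℝ) = (n : ℝ) - 3 := by
    rw [Nat.cast_sub (by omega)]; norm_num
  rw [e0]
  set M : ℝ := ((mF μ n : ℕ) : ℝ) with hM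
  have f1 : 1 + M / n + (-2) / n = ((n : ℝ) - 3 + M + 1) / n := by field_simp; ring
  have f2 : 1 + (-2) / (n : ℝ) = ((n : ℝ) - 3 + 1) / n := by field_simp; ring
  have f3 : M / n + 1 / n = (M + 1) / n := by ring
  rw [f1, f2, f3] at hn
  have g1 := mulLog_scale hn0 (show 0 < (n : ℝ) - 3 + M + 1 by linarith)
  have g2 := mulLog_scale hn0 (show 0 < (n : ℝ) - 3 + 1 by linarith)
  have g3 := mulLog_scale hn0 (show 0 < M + 1 by linarith)
  have h6 : (((n : ℝ) - 3 + M + 1) * Real.log ((n : ℝ) - 3 + M + 1)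
      - ((n : ℝ) - 3 + 1) * Real.log ((n : ℝ) - 3 + 1) - (M + 1) * Real.log (M + 1)) / n =
      (((n : ℝ) - 3 + M + 1) / n) * Real.log (((n : ℝ) - 3 + M + 1) / n)
        - (((n : ℝ) - 3 + 1) / n) * Real.log (((n : ℝ) - 3 + 1) / n)
        - ((M + 1) / n) * Real.log ((M + 1) / n) - Real.log n / n := by
    rw [sub_div, sub_div, g1, g2, g3]
    field_simp
    ring
  rw [← h6] at hn
  rw [le_div_iff₀ hn0] at hn
  linarith

theorem choose_upper_eventually {κ ε : ℝ} (hε : 0 < ε) (f : ℕ → ℕ)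
    (hf : Tendsto (fun n : ℕ => ((f n : ℕ) : ℝ) / n) atTop (𝓝 κ)) :
    ∀ᶠ n : ℕ in atTop, (((n + f n - 1).choose (f n) : ℕ) : ℝ) ≤ Real.exp (n * (gS κ + ε)) := by
  have h1 := (gS_continuous.tendsto κ).comp hf
  have h2 := h1.eventually_le_const (show gS κ < gS κ + ε by linarith)
  filter_upwards [h2, eventually_gt_atTop 0] with n hn hn0
  have hn0' : (0 : ℝ) < n := by exact_mod_cast hn0
  have h3 : (n + f n - 1).choose (f n) ≤ (n + f n).choose (f n) :=
    Nat.choose_le_choose _ (by omega)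
  calc (((n + f n - 1).choose (f n) : ℕ) : ℝ) ≤ (((n + f n).choose (f n) : ℕ) : ℝ) := by
        exact_mod_cast h3
    _ ≤ Real.exp (n * gS (((f n : ℕ) : ℝ) / n)) := choose_le_exp hn0
    _ ≤ _ := by
        apply Real.exp_le_exp.mpr
        exact mul_le_mul_of_nonneg_left hn hn0'.le

/-! ### The final bound -/

/-- The finite inequality at `n` for the number `M`. -/
def FiniteIneq (n : ℕ) (s M : ℝ) : Prop :=
  ∀ (m j0 J : ℕ) (w : ℕ → ℝ) (l : ℝ), 1 ≤ m → (∀ j, 0 ≤ w j) → (∀ j, J < j → w j = 0) →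
    (∀ j, j < j0 → w j = 0) → 0 < ∑ j ∈ Finset.Icc j0 J, w j → l * w 0 ≤ beS n m 1 * w 1 →
    (∀ j, l * w (j + 1) ≤ alS n m j * w j + beS n m (j + 2) * w (j + 2)) → s < l →
    M * ((l - s) * ((((n + m - 2).choose m : ℕ) : ℝ) - (((n + m - 3).choose (m - 2) : ℕ) : ℝ))) ≤
      (1 - s) * ∑ j ∈ Finset.Icc j0 J, (((n + m + j - 1).choose (m + j) : ℕ) : ℝ)

theorem lvS_eq {κ μ : ℝ} (hμ : 0 ≤ μ) (h : μ < κ) :
    lvS κ μ = 2 * Real.sqrt (limA κ μ * limB κ μ) := by
  have hκ : 0 < κ := lt_of_le_of_lt hμ h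
  have h1 : limA κ μ * limB κ μ =
      ((κ - μ) * (κ + μ + 1) / ((1 + 2 * κ) * Real.sqrt (κ * (1 + κ)))) ^ 2 := by
    rw [limA, limB, div_pow, mul_pow (1 + 2 * κ), Real.sq_sqrt (by positivity)]
    field_simp
  have h2 : 0 ≤ (κ - μ) * (κ + μ + 1) / ((1 + 2 * κ) * Real.sqrt (κ * (1 + κ))) := by
    have : 0 < κ - μ := by linarith
    positivity
  rw [h1, Real.sqrt_sq h2, lvS]
  ring

theorem limA_pos {κ μ : ℝ} (hμ : 0 ≤ μ) (h : μ < κ) : 0 < limA κ μ := by
  have hκ : 0 < κ := lt_of_le_of_lt hμ h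
  have : 0 < κ - μ := by linarith
  rw [limA]; positivity

theorem limB_pos {κ μ : ℝ} (hμ : 0 ≤ μ) (h : μ < κ) : 0 < limB κ μ := by
  have hκ : 0 < κ := lt_of_le_of_lt hμ h
  have : 0 < κ - μ := by linarith
  rw [limB]; positivity

theorem exists_window_size {c : ℝ} (hc : c < 1) :
    ∃ r : ℕ, 1 ≤ r ∧ c ≤ Real.cos (Real.pi / ((r : ℝ) + 1)) := by
  have h1 : Tendsto (fun r : ℕ => Real.cos (Real.pi / ((r : ℝ) + 1))) atTop (𝓝 (Real.cos 0)) := by
    apply (Real.continuous_cos.tendsto 0).comp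
    have h2 := (tendsto_const_div Real.pi).comp (tendsto_add_atTop_nat 1)
    refine h2.congr fun n => ?_
    simp
  rw [Real.cos_zero] at h1
  obtain ⟨r, hr, hr1⟩ := ((h1.eventually_const_le hc).and (eventually_ge_atTop 1)).exists
  exact ⟨r, hr1, hr⟩

theorem asym_main {κ μ s : ℝ} (hμ : 0 ≤ μ) (h : μ < κ) (hμ1 : μ < 1) (hs0 : 0 ≤ s)
    (hs : s < lvS κ μ) {ε : ℝ} (hε : 0 < ε) :
    ∀ᶠ n : ℕ in atTop, ∀ M : ℝ, FiniteIneq n s M → M ≤ Real.exp (n * (gS κ - gS μ + ε)) := by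
  have hκ : 0 < κ := lt_of_le_of_lt hμ h
  have hA0 := limA_pos hμ h
  have hB0 := limB_pos hμ h
  set Q : ℝ := Real.sqrt (limA κ μ * limB κ μ) with hQ
  have hQ0 : 0 < Q := Real.sqrt_pos.mpr (mul_pos hA0 hB0)
  rw [lvS_eq hμ h] at hs
  obtain ⟨l, hl1, hl2⟩ := exists_between hs
  have hl0 : 0 < l := lt_of_le_of_lt hs0 hl1
  obtain ⟨q, hq1, hq2⟩ := exists_between (show l / 2 < Q by linarith)
  have hq0 : 0 < q := by linarith
  obtain ⟨r, hr1, hr⟩ := exists_window_size (show l / (2 * q) < 1 by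
    rw [div_lt_one (by positivity)]; linarith)
  have hlr : l ≤ 2 * q * Real.cos (Real.pi / ((r : ℝ) + 1)) := by
    rw [div_le_iff₀ (by positivity)] at hr
    linarith
  set ρ : ℝ := Real.sqrt (limA κ μ / limB κ μ) with hρdef
  have hρ0 : 0 < ρ := Real.sqrt_pos.mpr (div_pos hA0 hB0)
  have hQρ : Q * ρ = limA κ μ := by
    rw [hQ, hρdef, ← Real.sqrt_mul (mul_pos hA0 hB0).le]
    have : limA κ μ * limB κ μ * (limA κ μ / limB κ μ) = limA κ μ ^ 2 := by
      field_simp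
    rw [this, Real.sqrt_sq hA0.le]
  have hQρ' : Q / ρ = limB κ μ := by
    rw [div_eq_iff hρ0.ne']
    have h1 : limB κ μ * ρ * ρ = limA κ μ := by
      rw [mul_assoc, hρdef, Real.mul_self_sqrt (div_pos hA0 hB0).le]
      field_simp
    have h2 : (Q - limB κ μ * ρ) * ρ = 0 := by
      rw [sub_mul, hQρ, h1, sub_self]
    rcases mul_eq_zero.mp h2 with h3 | h3
    · linarith
    · exact absurd h3 hρ0.ne'
  have hA1 : q * ρ < limA κ μ := by
    rw [← hQρ]; exact mul_lt_mul_of_pos_right hq2 hρ0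
  have hB1 : q / ρ < limB κ μ := by
    rw [← hQρ']; exact div_lt_div_of_pos_right hq2 hρ0
  -- eventual facts
  have hjF := jF_eventually hμ h
  have evA : ∀ᶠ n : ℕ in atTop, ∀ i ∈ Finset.range r,
      q * ρ ≤ alS n (mF μ n) (jF κ μ n + i - 1) := by
    rw [Filter.eventually_all_finset]
    intro i _
    have hlim := tendsto_alS hμ h ((i : ℝ) - 1) (fun n => jF κ μ n + i - 1) (by
      filter_upwards [hjF] with n hn
      have : 1 ≤ jF κ μ n := by rw [jF]; omega
      rw [Nat.cast_sub (by omega)]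
      push_cast
      ring)
    exact hlim.eventually_const_le hA1
  have evB : ∀ᶠ n : ℕ in atTop, ∀ i ∈ Finset.range r,
      q / ρ ≤ beS n (mF μ n) (jF κ μ n + i + 1) := by
    rw [Filter.eventually_all_finset]
    intro i _
    have hlim := tendsto_beS hμ h ((i : ℝ) + 1) (fun n => jF κ μ n + i + 1) (by
      filter_upwards with n
      push_cast
      ring)
    exact hlim.eventually_const_le hB1
  have evU : ∀ᶠ n : ℕ in atTop, ∀ i ∈ Finset.range r,
      (((n + (mF μ n + (jF κ μ n + i)) - 1).choose (mF μ n + (jF κ μ n + i)) : ℕ) : ℝ) ≤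
        Real.exp (n * (gS κ + ε / 3)) := by
    rw [Filter.eventually_all_finset]
    intro i _
    apply choose_upper_eventually (by positivity)
    have h1 := ((tendsto_mF hμ).add (tendsto_jF hμ h)).add (tendsto_const_div (i : ℝ))
    have e : μ + (κ - μ) + 0 = κ := by ring
    rw [e] at h1
    refine h1.congr fun n => ?_
    push_cast
    ring
  have evL := choose_lower_eventually hμ (show 0 < ε / 3 by positivity)
  have evm : ∀ᶠ n : ℕ in atTop, mF μ n < n := by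
    have h1 := (tendsto_mF hμ).eventually_lt_const hμ1
    filter_upwards [h1, eventually_gt_atTop 0] with n hn hn0
    have hn0' : (0 : ℝ) < n := by exact_mod_cast hn0
    rw [div_lt_one hn0'] at hn
    exact_mod_cast hn
  have evC : ∀ᶠ n : ℕ in atTop, r / (l - s) ≤ Real.exp (n * (ε / 3)) := by
    have h1 : Tendsto (fun n : ℕ => Real.exp ((n : ℝ) * (ε / 3))) atTop atTop :=
      Real.tendsto_exp_atTop.comp
        (tendsto_natCast_atTop_atTop.atTop_mul_const (by positivity))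
    exact h1.eventually_ge_atTop _
  filter_upwards [hjF, evA, evB, evU, evL, evm, evC, eventually_ge_atTop 5] with
    n hj hA hB hU hL hm hC h5 M hM
  have hjF1 : 1 ≤ jF κ μ n := by rw [jF]; omega
  have hm1 : 1 ≤ mF μ n := by rw [mF]; omega
  have hls : 0 < l - s := by linarith
  have hn0 : (0 : ℝ) < n := by
    have : (5 : ℝ) ≤ n := by exact_mod_cast h5
    linarith
  have key := hM (mF μ n) (jF κ μ n) (jF κ μ n + r - 1)
    (wS ρ (Real.pi / ((r : ℝ) + 1)) r (jF κ μ n)) l hm1 (wS_nonneg hρ0)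
    (fun j hj => wS_out (by omega)) (fun j hj => wS_out (by omega))
    (by
      apply Finset.sum_pos' (fun j _ => wS_nonneg hρ0 j)
      refine ⟨jF κ μ n, Finset.mem_Icc.mpr ⟨le_rfl, by omega⟩, ?_⟩
      have := wS_in (ρ := ρ) (θ := Real.pi / ((r : ℝ) + 1)) (j0 := jF κ μ n)
        (show 0 < r by omega)
      rw [add_zero] at this
      rw [this]
      have h0 := sin_window_pos (show 0 < r by omega)
      simpa using h0)
    (window_zero (by omega) hρ0 hjF1)
    (window (by omega) hρ0 hq0 hjF1 hlr hA hB) hl1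
  have hsum : ∑ j ∈ Finset.Icc (jF κ μ n) (jF κ μ n + r - 1),
      (((n + mF μ n + j - 1).choose (mF μ n + j) : ℕ) : ℝ) ≤ r * Real.exp (n * (gS κ + ε / 3)) := by
    have h1 : ∀ j ∈ Finset.Icc (jF κ μ n) (jF κ μ n + r - 1),
        (((n + mF μ n + j - 1).choose (mF μ n + j) : ℕ) : ℝ) ≤ Real.exp (n * (gS κ + ε / 3)) := by
      intro j hj
      rw [Finset.mem_Icc] at hj
      obtain ⟨i, rfl⟩ := Nat.exists_eq_add_of_le hj.1
      have := hU i (Finset.mem_range.mpr (by omega))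
      have e : n + mF μ n + (jF κ μ n + i) - 1 = n + (mF μ n + (jF κ μ n + i)) - 1 := by omega
      rw [e]
      exact this
    have h2 := Finset.sum_le_card_nsmul _ _ _ h1
    rw [Nat.card_Icc, nsmul_eq_mul] at h2
    have e : jF κ μ n + r - 1 + 1 - jF κ μ n = r := by omega
    rw [e] at h2
    exact h2
  have hdiff := choose_diff_lower h5 hm1 hm
  set D : ℝ := (((n + mF μ n - 2).choose (mF μ n) : ℕ) : ℝ) -
    (((n + mF μ n - 3).choose (mF μ n - 2) : ℕ) : ℝ) with hD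
  have hD1 : Real.exp (n * (gS μ - ε / 3)) ≤ D := hL.trans hdiff
  have hD0 : 0 < D := lt_of_lt_of_le (Real.exp_pos _) hD1
  -- conclude
  by_contra hcon
  rw [not_le] at hcon
  have hM0 : 0 < M := lt_trans (Real.exp_pos _) hcon
  have h1 : Real.exp (n * (gS κ - gS μ + ε)) * ((l - s) * Real.exp (n * (gS μ - ε / 3))) <
      M * ((l - s) * D) := by
    calc Real.exp (n * (gS κ - gS μ + ε)) * ((l - s) * Real.exp (n * (gS μ - ε / 3)))
        < M * ((l - s) * Real.exp (n * (gS μ - ε / 3))) :=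
          mul_lt_mul_of_pos_right hcon (mul_pos hls (Real.exp_pos _))
      _ ≤ M * ((l - s) * D) := by
          apply mul_le_mul_of_nonneg_left _ hM0.le
          exact mul_le_mul_of_nonneg_left hD1 hls.le
  have h2 : (1 - s) * ∑ j ∈ Finset.Icc (jF κ μ n) (jF κ μ n + r - 1),
      (((n + mF μ n + j - 1).choose (mF μ n + j) : ℕ) : ℝ) ≤ r * Real.exp (n * (gS κ + ε / 3)) := by
    have h3 : 0 ≤ ∑ j ∈ Finset.Icc (jF κ μ n) (jF κ μ n + r - 1),
      (((n + mF μ n + j - 1).choose (mF μ n + j) : ℕ) : ℝ) :=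
      Finset.sum_nonneg fun _ _ => Nat.cast_nonneg _
    calc _ ≤ 1 * ∑ j ∈ Finset.Icc (jF κ μ n) (jF κ μ n + r - 1),
      (((n + mF μ n + j - 1).choose (mF μ n + j) : ℕ) : ℝ) :=
          mul_le_mul_of_nonneg_right (by linarith) h3
      _ ≤ _ := by rw [one_mul]; exact hsum
  have h3 : Real.exp (n * (gS κ - gS μ + ε)) * ((l - s) * Real.exp (n * (gS μ - ε / 3))) <
      r * Real.exp (n * (gS κ + ε / 3)) := lt_of_lt_of_le h1 (key.trans h2)
  have h4 : Real.exp (n * (gS κ - gS μ + ε)) * Real.exp (n * (gS μ - ε / 3)) =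
      Real.exp (n * (ε / 3)) * Real.exp (n * (gS κ + ε / 3)) := by
    rw [← Real.exp_add, ← Real.exp_add]
    congr 1
    ring
  have h5 : Real.exp (n * (gS κ - gS μ + ε)) * ((l - s) * Real.exp (n * (gS μ - ε / 3))) =
      ((l - s) * Real.exp (n * (ε / 3))) * Real.exp (n * (gS κ + ε / 3)) := by
    calc _ = (l - s) * (Real.exp (n * (gS κ - gS μ + ε)) * Real.exp (n * (gS μ - ε / 3))) := by
          ring
      _ = _ := by rw [h4]; ring
  rw [h5] at h3
  have h6 := lt_of_mul_lt_mul_right h3 (Real.exp_pos _).le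
  have h7 : (r : ℝ) ≤ (l - s) * Real.exp (n * (ε / 3)) := by
    rw [div_le_iff₀ hls] at hC
    linarith
  linarith

end Pool.Agent.Lib.MP_b2bfca_co
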