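import Pool.Agent.Lib.MP_b2bfca_co.Harm

/-!
# The Bessel type inequality for harmonic polynomials
-/

set_option autoImplicit false
set_option linter.unusedSectionVars false

namespace Pool.Agent.Lib.MP_b2bfca_co

open Finset MvPolynomial

variable {ι : Type*} [Fintype ι] [DecidableEq ι]

/-- The constant in `∑ ‖c_a B‖² = N ‖B‖²` for harmonic `B` of degree `k`. -/
noncomputable def nn (ι : Type*) [Fintype ι] (k : ℕ) : ℝ :=
  (Fintype.card ι : ℝ) + k - 2 * k * al ι k

theorem dx_single (a : ι) (p : MvPolynomial ι ℝ) : dx (Pi.single a 1) p = pderiv a p := by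
  unfold dx
  rw [Finset.sum_eq_single a]
  · simp
  · intro b _ hb
    simp [hb]
  · simp

theorem lx_single (a : ι) : lx (Pi.single a 1) = (X a : MvPolynomial ι ℝ) := by
  unfold lx
  rw [Finset.sum_eq_single a]
  · simp
  · intro b _ hb
    simp [hb]
  · simp

theorem sum_pderiv_sq {k : ℕ} {A : MvPolynomial ι ℝ} (hA : A.IsHomogeneous k) :
    ∑ a, fi (pderiv a A) (pderiv a A) = k * fi A A := by
  have h1 : ∀ a : ι, fi (pderiv a A) (pderiv a A) = fi A (X a * pderiv a A) := by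
    intro a
    rw [fi_mul_X]
  simp only [h1]
  rw [← fi_sum_right, hA.sum_X_mul_pderiv, map_nsmul, nsmul_eq_mul]

theorem sum_cx_sq (hn : 3 ≤ Fintype.card ι) {k : ℕ} {B : MvPolynomial ι ℝ} (hB : Hm k B) :
    ∑ a, fi (cx k (Pi.single a 1) B) (cx k (Pi.single a 1) B) = nn ι k * fi B B := by
  have h1 : ∀ a : ι, fi (cx k (Pi.single a 1) B) (cx k (Pi.single a 1) B)
      = fi B (pderiv a (cx k (Pi.single a 1) B)) := by
    intro a
    rw [fi_cx _ _ (hB.cx hn _).2, dx_single]
  simp only [h1]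
  rw [← fi_sum_right]
  have h2 : ∑ a, pderiv a (cx k (Pi.single a 1) B) = C (nn ι k) * B := by
    have h3 : ∀ a : ι, pderiv a (cx k (Pi.single a 1) B)
        = B + X a * pderiv a B - C (al ι k) * (2 * (X a * pderiv a B))
          - C (al ι k) * (r2 * pderiv a (pderiv a B)) := by
      intro a
      unfold cx
      rw [dx_single, lx_single, map_sub, pderiv_mul, pderiv_X_self, pderiv_C_mul, pderiv_mul,
        pderiv_r2]
      ring
    simp only [h3, Finset.sum_add_distrib, Finset.sum_sub_distrib, ← Finset.mul_sum]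
    have h4 : ∑ a, pderiv a (pderiv a B) = 0 := hB.2
    rw [h4, hB.1.sum_X_mul_pderiv, Finset.sum_const, Finset.card_univ, nsmul_eq_mul, nsmul_eq_mul]
    unfold nn
    rw [map_sub, map_add, map_mul, map_mul, C_nat, C_nat, C_two]
    ring
  rw [h2, fi_C_mul_right]

theorem nn_pos (hn : 3 ≤ Fintype.card ι) (k : ℕ) : 0 < nn ι k := by
  have hn' : (3 : ℝ) ≤ (Fintype.card ι : ℝ) := by exact_mod_cast hn
  have hk : (0 : ℝ) ≤ k := Nat.cast_nonneg k
  have h1 : 0 < (Fintype.card ι : ℝ) + 2 * k - 2 := by nlinarith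
  unfold nn al
  have h2 : 2 * (k : ℝ) * (1 / ((Fintype.card ι : ℝ) + 2 * k - 2)) ≤ 2 * k := by
    rw [mul_one_div]
    apply div_le_self (by positivity)
    nlinarith
  have h3 : 2 * (k : ℝ) * (1 / ((Fintype.card ι : ℝ) + 2 * k - 2)) ≤ 1 := by
    rw [mul_one_div, div_le_one h1]
    nlinarith
  nlinarith

/-- The Bessel inequality for the two equivariant embeddings into `R^n ⊗ Harm_(k+1)`. -/
theorem bessel (hn : 3 ≤ Fintype.card ι) {κ : Type*} (S : Finset κ) {k : ℕ} (x : κ → ι → ℝ)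
    (f : κ → MvPolynomial ι ℝ) (hf : ∀ i ∈ S, Hm (k + 1) (f i)) :
    fi (∑ i ∈ S, cx (k + 1) (x i) (f i)) (∑ i ∈ S, cx (k + 1) (x i) (f i)) / ((k : ℝ) + 2)
      + fi (∑ i ∈ S, dx (x i) (f i)) (∑ i ∈ S, dx (x i) (f i)) / nn ι k
      ≤ ∑ i ∈ S, ∑ j ∈ S, (∑ a, x i a * x j a) * fi (f i) (f j) := by
  classical
  set A := ∑ i ∈ S, cx (k + 1) (x i) (f i) with hA
  set B := ∑ i ∈ S, dx (x i) (f i) with hB
  have hAH : Hm (k + 2) A := Hm.sum fun i hi => (hf i hi).cx hn _
  have hBH : Hm k B := Hm.sum fun i hi => by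
    have := (hf i hi).dx (x i)
    rwa [Nat.add_sub_cancel] at this
  set Xa : ι → MvPolynomial ι ℝ := fun a => ∑ i ∈ S, C (x i a) * f i with hXa
  have hXH : ∀ a, Hm (k + 1) (Xa a) := fun a => Hm.sum fun i hi => (hf i hi).C_mul _
  set N := nn ι k with hN
  have hNpos : 0 < N := nn_pos hn k
  -- the total
  have e0 : ∑ i ∈ S, ∑ j ∈ S, (∑ a, x i a * x j a) * fi (f i) (f j) = ∑ a, fi (Xa a) (Xa a) := by
    have h1 : ∀ a, fi (Xa a) (Xa a) = ∑ i ∈ S, ∑ j ∈ S, x i a * x j a * fi (f i) (f j) := by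
      intro a
      simp only [hXa]
      rw [fi_sum_left]
      apply Finset.sum_congr rfl
      intro i _
      rw [fi_sum_right]
      apply Finset.sum_congr rfl
      intro j _
      rw [fi_C_mul_left, fi_C_mul_right]
      ring
    simp only [h1]
    symm
    rw [Finset.sum_comm]
    apply Finset.sum_congr rfl
    intro i _
    rw [Finset.sum_comm]
    apply Finset.sum_congr rfl
    intro j _
    rw [Finset.sum_mul]
  have e1 : ∑ a, fi (Xa a) (pderiv a A) = fi A A := by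
    have h1 : ∀ a, fi (Xa a) (pderiv a A) = ∑ i ∈ S, x i a * fi (f i) (pderiv a A) := by
      intro a
      simp only [hXa]
      rw [fi_sum_left]
      apply Finset.sum_congr rfl
      intro i _
      rw [fi_C_mul_left]
    simp only [h1]
    rw [Finset.sum_comm]
    have h2 : fi A A = ∑ i ∈ S, fi (f i) (dx (x i) A) := by
      conv_lhs => rw [hA]
      rw [fi_sum_left]
      apply Finset.sum_congr rfl
      intro i _
      rw [← hA, fi_cx _ _ hAH.2]
    rw [h2]
    apply Finset.sum_congr rfl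
    intro i _
    unfold dx
    rw [fi_sum_right]
    apply Finset.sum_congr rfl
    intro a _
    rw [fi_C_mul_right]
  have e2 : ∑ a, fi (Xa a) (cx k (Pi.single a 1) B) = fi B B := by
    have h1 : ∀ a, fi (Xa a) (cx k (Pi.single a 1) B) = fi (pderiv a (Xa a)) B := by
      intro a
      rw [fi_comm, fi_cx _ _ (hXH a).2, dx_single, fi_comm]
    simp only [h1]
    rw [← fi_sum_left]
    congr 2
    rw [hB]
    simp only [hXa, map_sum, pderiv_C_mul]
    rw [Finset.sum_comm]
    rfl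
  have e3 : ∑ a, fi (pderiv a A) (cx k (Pi.single a 1) B) = 0 := by
    have h1 : ∀ a : ι, fi (pderiv a A) (cx k (Pi.single a 1) B)
        = fi (pderiv a (pderiv a A)) B := by
      intro a
      rw [fi_comm, fi_cx _ _ (hAH.pderiv a).2, dx_single, fi_comm]
    simp only [h1]
    rw [← fi_sum_left]
    have : ∑ a, pderiv a (pderiv a A) = 0 := hAH.2
    rw [this]
    simp
  have e4 := sum_pderiv_sq hAH.1
  have e5 := sum_cx_sq hn hBH
  rw [e0]
  have hk2 : (0 : ℝ) < (k : ℝ) + 2 := by positivity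
  have h0 : 0 ≤ ∑ a, fi (Xa a - C (1 / ((k : ℝ) + 2)) * pderiv a A
        - C (1 / N) * cx k (Pi.single a 1) B)
      (Xa a - C (1 / ((k : ℝ) + 2)) * pderiv a A - C (1 / N) * cx k (Pi.single a 1) B) :=
    Finset.sum_nonneg fun a _ => fi_self_nonneg _
  have h1 : ∀ a : ι, fi (Xa a - C (1 / ((k : ℝ) + 2)) * pderiv a A
        - C (1 / N) * cx k (Pi.single a 1) B)
      (Xa a - C (1 / ((k : ℝ) + 2)) * pderiv a A - C (1 / N) * cx k (Pi.single a 1) B)
      = fi (Xa a) (Xa a) - 2 * (1 / ((k : ℝ) + 2)) * fi (Xa a) (pderiv a A)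
        - 2 * (1 / N) * fi (Xa a) (cx k (Pi.single a 1) B)
        + (1 / ((k : ℝ) + 2)) ^ 2 * fi (pderiv a A) (pderiv a A)
        + (1 / N) ^ 2 * fi (cx k (Pi.single a 1) B) (cx k (Pi.single a 1) B)
        + 2 * (1 / ((k : ℝ) + 2)) * (1 / N) * fi (pderiv a A) (cx k (Pi.single a 1) B) := by
    intro a
    simp only [map_sub, LinearMap.sub_apply, fi_C_mul_left, fi_C_mul_right]
    rw [fi_comm (pderiv a A) (Xa a), fi_comm (cx k (Pi.single a 1) B) (Xa a),
      fi_comm (cx k (Pi.single a 1) B) (pderiv a A)]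
    ring
  simp only [h1, Finset.sum_add_distrib, Finset.sum_sub_distrib, ← Finset.mul_sum] at h0
  rw [e1, e2, e3, e4, e5] at h0
  push_cast at h0
  have f1 : (1 / ((k : ℝ) + 2)) ^ 2 * (((k : ℝ) + 2) * fi A A) = fi A A / ((k : ℝ) + 2) := by
    field_simp
  have f2 : (1 / N) ^ 2 * (nn ι k * fi B B) = fi B B / N := by
    rw [← hN]
    field_simp
  rw [f1, f2] at h0
  have f3 : 2 * (1 / ((k : ℝ) + 2)) * fi A A = 2 * (fi A A / ((k : ℝ) + 2)) := by ring
  have f4 : 2 * (1 / N) * fi B B = 2 * (fi B B / N) := by ring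
  rw [f3, f4] at h0
  linarith

end Pool.Agent.Lib.MP_b2bfca_co
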