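import Mathlib

/-!
# Average number of tangencies in packings of balls of arbitrary radii: definitions
-/

set_option autoImplicit false

namespace Pool.Agent.Lib.MP_b2bfca_co

open Finset

/-- A finite set of unit vectors of `ℝ^N` with pairwise inner products at most `s`. -/
def SphCode (N : ℕ) (s : ℝ) (S : Finset (EuclideanSpace ℝ (Fin N))) : Prop :=
  (∀ x ∈ S, ‖x‖ = 1) ∧ ∀ x ∈ S, ∀ y ∈ S, x ≠ y → inner ℝ x y ≤ s

/-- `n` closed balls in `ℝ^d` with centres `c i`, radii `r i > 0` and pairwise disjoint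
interiors. -/
def IsPacking {n d : ℕ} (c : Fin n → EuclideanSpace ℝ (Fin d)) (r : Fin n → ℝ) : Prop :=
  (∀ i, 0 < r i) ∧ ∀ i j, i ≠ j → r i + r j ≤ dist (c i) (c j)

/-- The number of edges of the tangent graph. -/
noncomputable def edges {n d : ℕ} (c : Fin n → EuclideanSpace ℝ (Fin d)) (r : Fin n → ℝ) : ℕ :=
  (univ.filter fun p : Fin n × Fin n => p.1 < p.2 ∧ dist (c p.1) (c p.2) = r p.1 + r p.2).card

/-- `E(n,d)`: the maximum number of edges of the tangent graph of `n` balls in `ℝ^d`. -/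
noncomputable def E (n d : ℕ) : ℕ :=
  sSup {e : ℕ | ∃ (c : Fin n → EuclideanSpace ℝ (Fin d)) (r : Fin n → ℝ),
    IsPacking c r ∧ e = edges c r}

/-- `κ_d = sup_{n ≥ 1} E(n,d)/n`. -/
noncomputable def kappa (d : ℕ) : ℝ := ⨆ n : ℕ, (E (n + 1) d : ℝ) / ((n : ℝ) + 1)

/-- `g(t) = (1+t) ln (1+t) - t ln t`. -/
noncomputable def gg (t : ℝ) : ℝ := (1 + t) * Real.log (1 + t) - t * Real.log t

end Pool.Agent.Lib.MP_b2bfca_co
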