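import Pool.Agent.Lib.MP_b2bfca_co.Family

/-!
# Orthonormal families of harmonic polynomials constant in a direction
-/

set_option autoImplicit false
set_option linter.unusedSectionVars false

namespace Pool.Agent.Lib.MP_b2bfca_co

open Finset MvPolynomial

variable {ι : Type*} [Fintype ι] [DecidableEq ι]

/-- Exponents of degree `m`. -/
abbrev Mon (ι : Type*) [Fintype ι] [DecidableEq ι] (m : ℕ) : Type _ :=
  {s : ι →₀ ℕ // s ∈ finsuppAntidiag (univ : Finset ι) m}

/-- The isometry from coordinates to polynomials. -/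
noncomputable def JJ (m : ℕ) : EuclideanSpace ℝ (Mon ι m) →ₗ[ℝ] MvPolynomial ι ℝ where
  toFun v := ∑ s : Mon ι m, C (v s / Real.sqrt (fc s.1)) * monomial s.1 1
  map_add' v v' := by
    rw [← Finset.sum_add_distrib]
    apply Finset.sum_congr rfl
    intro s _
    rw [← add_mul, ← map_add, PiLp.add_apply, add_div]
  map_smul' c v := by
    rw [RingHom.id_apply, Finset.smul_sum]
    apply Finset.sum_congr rfl
    intro s _
    rw [PiLp.smul_apply, smul_eq_mul, mul_div_assoc, map_mul, mul_assoc, C_mul']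

theorem JJ_apply (m : ℕ) (v : EuclideanSpace ℝ (Mon ι m)) :
    JJ m v = ∑ s : Mon ι m, C (v s / Real.sqrt (fc s.1)) * monomial s.1 1 := rfl

theorem coeff_JJ (m : ℕ) (v : EuclideanSpace ℝ (Mon ι m)) (s : Mon ι m) :
    coeff s.1 (JJ m v) = v s / Real.sqrt (fc s.1) := by
  rw [JJ_apply, coeff_sum, Finset.sum_eq_single s]
  · rw [coeff_C_mul, coeff_monomial, if_pos rfl, mul_one]
  · intro r _ hr
    rw [coeff_C_mul, coeff_monomial, if_neg, mul_zero]
    exact fun h => hr (Subtype.ext h)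
  · intro h
    exact absurd (mem_univ s) h

theorem JJ_hom (m : ℕ) (v : EuclideanSpace ℝ (Mon ι m)) : (JJ m v).IsHomogeneous m := by
  rw [JJ_apply]
  apply IsHomogeneous.sum
  intro s _
  have h1 : (monomial s.1 (1 : ℝ)).IsHomogeneous m := by
    apply isHomogeneous_monomial
    have := (mem_finsuppAntidiag.1 s.2).1
    rw [Finsupp.degree_eq_sum]
    exact this
  have := (isHomogeneous_C ι (v s / Real.sqrt (fc s.1))).mul h1
  rwa [zero_add] at this

theorem fi_JJ (m : ℕ) (v v' : EuclideanSpace ℝ (Mon ι m)) :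
    fi (JJ m v) (JJ m v') = inner ℝ v v' := by
  rw [fi_hom (JJ_hom m v), PiLp.inner_apply]
  rw [← Finset.sum_coe_sort (finsuppAntidiag (univ : Finset ι) m)
    (fun s => fc s * (coeff s (JJ m v) * coeff s (JJ m v')))]
  apply Finset.sum_congr rfl
  intro s _
  rw [coeff_JJ, coeff_JJ]
  have h1 := Real.mul_self_sqrt (fc_pos s.1).le
  have h2 : Real.sqrt (fc s.1) ≠ 0 := (Real.sqrt_pos.2 (fc_pos s.1)).ne'
  simp only [RCLike.inner_apply, conj_trivial]
  have h3 : fc s.1 * (v s / Real.sqrt (fc s.1) * (v' s / Real.sqrt (fc s.1)))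
      = (Real.sqrt (fc s.1) * Real.sqrt (fc s.1)) * (v s / Real.sqrt (fc s.1)
        * (v' s / Real.sqrt (fc s.1))) := by rw [h1]
  rw [h3]
  field_simp

theorem eq_zero_of_coeff {k : ℕ} {p : MvPolynomial ι ℝ} (hp : p.IsHomogeneous k)
    (h : ∀ s : Mon ι k, coeff s.1 p = 0) : p = 0 := by
  ext s
  rw [coeff_zero]
  by_cases hs : s ∈ finsuppAntidiag (univ : Finset ι) k
  · exact h ⟨s, hs⟩
  · apply hp.coeff_eq_zero
    intro h2
    apply hs
    rw [mem_finsuppAntidiag]
    refine ⟨?_, Finset.subset_univ _⟩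
    rw [Finsupp.degree_eq_sum] at h2
    exact h2

/-- The constraints. -/
noncomputable def TT (m : ℕ) (x : ι → ℝ) : EuclideanSpace ℝ (Mon ι m) →ₗ[ℝ]
    (Mon ι (m - 1) → ℝ) × (Mon ι (m - 1 - 1) → ℝ) where
  toFun v := (fun s => coeff s.1 (dx x (JJ m v)), fun s => coeff s.1 (lap (JJ m v)))
  map_add' v v' := by
    ext s
    · simp [dx_add]
    · simp [lap_add]
  map_smul' c v := by
    have h : JJ m (c • v) = C c * JJ m v := by rw [map_smul, C_mul']
    ext s
    · simp only [h, dx_C_mul, coeff_C_mul]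
      rfl
    · simp only [h, lap_C_mul, coeff_C_mul]
      rfl

theorem card_Mon (m : ℕ) : Fintype.card (Mon ι m) = (Fintype.card ι + m - 1).choose m := by
  rw [Fintype.card_coe, card_finsuppAntidiag_nat_eq_choose, Finset.card_univ]

theorem dx_hom {k : ℕ} {p : MvPolynomial ι ℝ} (h : p.IsHomogeneous k) (x : ι → ℝ) :
    (dx x p).IsHomogeneous (k - 1) := by
  unfold dx
  apply IsHomogeneous.sum
  intro a _
  have := (isHomogeneous_C ι (x a)).mul (h.pderiv (i := a))
  rwa [zero_add] at this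

theorem lap_hom {k : ℕ} {p : MvPolynomial ι ℝ} (h : p.IsHomogeneous k) :
    (lap p).IsHomogeneous (k - 1 - 1) := by
  unfold lap
  apply IsHomogeneous.sum
  intro a _
  exact (h.pderiv (i := a)).pderiv (i := a)

theorem exists_family (hn : 5 ≤ Fintype.card ι) {m : ℕ} (hm : 1 ≤ m) (x : ι → ℝ) :
    ∃ Y : Fin ((Fintype.card ι + m - 2).choose m - (Fintype.card ι + m - 3).choose (m - 2)) →
        MvPolynomial ι ℝ,
      (∀ a, Hm m (Y a)) ∧ (∀ a, dx x (Y a) = 0) ∧
      ∀ a b, fi (Y a) (Y b) = if a = b then 1 else 0 := by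
  set K := LinearMap.ker (TT m x) with hK
  have h1 : Module.finrank ℝ (EuclideanSpace ℝ (Mon ι m)) = (Fintype.card ι + m - 1).choose m := by
    rw [finrank_euclideanSpace, card_Mon]
  have h2 : Module.finrank ℝ ((Mon ι (m - 1) → ℝ) × (Mon ι (m - 1 - 1) → ℝ))
      = (Fintype.card ι + (m - 1) - 1).choose (m - 1)
        + (Fintype.card ι + (m - 1 - 1) - 1).choose (m - 1 - 1) := by
    rw [Module.finrank_prod, Module.finrank_fintype_fun_eq_card,
      Module.finrank_fintype_fun_eq_card, card_Mon, card_Mon]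
  have h3 := LinearMap.finrank_range_add_finrank_ker (TT m x)
  have h4 : Module.finrank ℝ (LinearMap.range (TT m x))
      ≤ Module.finrank ℝ ((Mon ι (m - 1) → ℝ) × (Mon ι (m - 1 - 1) → ℝ)) :=
    Submodule.finrank_le _
  have h5 : (Fintype.card ι + m - 1).choose m
      = (Fintype.card ι + (m - 1) - 1).choose (m - 1) + (Fintype.card ι + m - 2).choose m := by
    obtain ⟨j, rfl⟩ : ∃ j, m = j + 1 := ⟨m - 1, by omega⟩
    have e1 : Fintype.card ι + (j + 1) - 1 = (Fintype.card ι + j - 1) + 1 := by omega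
    have e2 : Fintype.card ι + (j + 1) - 2 = Fintype.card ι + j - 1 := by omega
    rw [e1, e2, Nat.choose_succ_succ, Nat.add_sub_cancel]
  have h6 : (Fintype.card ι + (m - 1 - 1) - 1).choose (m - 1 - 1)
      = (Fintype.card ι + m - 3).choose (m - 2) := by
    rcases Nat.lt_or_ge m 2 with h | h
    · have : m = 1 := by omega
      subst this
      simp
    · have e1 : m - 1 - 1 = m - 2 := by omega
      have e2 : Fintype.card ι + (m - 2) - 1 = Fintype.card ι + m - 3 := by omega
      rw [e1, e2]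
  have h7 : (Fintype.card ι + m - 2).choose m - (Fintype.card ι + m - 3).choose (m - 2)
      ≤ Module.finrank ℝ K := by
    rw [h1] at h3
    rw [h2] at h4
    rw [hK]
    omega
  let b := stdOrthonormalBasis ℝ K
  refine ⟨fun a => JJ m (b (Fin.castLE h7 a) : EuclideanSpace ℝ (Mon ι m)), ?_, ?_, ?_⟩
  · intro a
    have hk : TT m x (b (Fin.castLE h7 a) : EuclideanSpace ℝ (Mon ι m)) = 0 :=
      (b (Fin.castLE h7 a)).2
    refine ⟨JJ_hom m _, ?_⟩
    apply eq_zero_of_coeff (lap_hom (JJ_hom m _))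
    intro s
    exact congrFun (congrArg Prod.snd hk) s
  · intro a
    have hk : TT m x (b (Fin.castLE h7 a) : EuclideanSpace ℝ (Mon ι m)) = 0 :=
      (b (Fin.castLE h7 a)).2
    apply eq_zero_of_coeff (dx_hom (JJ_hom m _) x)
    intro s
    exact congrFun (congrArg Prod.fst hk) s
  · intro a c
    rw [fi_JJ]
    have h8 := orthonormal_iff_ite.1 b.orthonormal (Fin.castLE h7 a) (Fin.castLE h7 c)
    rw [Submodule.coe_inner] at h8
    rw [h8]
    simp only [Fin.castLE_inj]

end Pool.Agent.Lib.MP_b2bfca_co
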