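import Pool.Agent.Lib.MP_b2bfca_co.Kernel

/-!
# The bound from orthonormal families
-/

set_option autoImplicit false
set_option linter.unusedSectionVars false

namespace Pool.Agent.Lib.MP_b2bfca_co

open Finset MvPolynomial

variable {ι : Type*} [Fintype ι] [DecidableEq ι]

theorem fi_hom {k : ℕ} {p : MvPolynomial ι ℝ} (hp : p.IsHomogeneous k) (q : MvPolynomial ι ℝ) :
    fi p q = ∑ s ∈ finsuppAntidiag univ k, fc s * (coeff s p * coeff s q) := by
  apply fi_eq
  intro s hs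
  rw [mem_finsuppAntidiag]
  refine ⟨?_, Finset.subset_univ _⟩
  by_contra h
  have h2 : coeff s p = 0 := by
    apply hp.coeff_eq_zero
    rw [Finsupp.degree_eq_sum]
    exact h
  exact (MvPolynomial.mem_support_iff.1 hs) h2

/-- Index set of the coordinates. -/
noncomputable def Sg (ι : Type*) [Fintype ι] [DecidableEq ι] (m : ℕ) (W : Finset ℕ) :
    Finset (Σ _ : ℕ, ι →₀ ℕ) := W.sigma fun t => finsuppAntidiag univ (m + t)

theorem card_Sg (m : ℕ) (W : Finset ℕ) :
    (Sg ι m W).card = ∑ t ∈ W, (Fintype.card ι + (m + t) - 1).choose (m + t) := by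
  unfold Sg
  rw [Finset.card_sigma]
  apply Finset.sum_congr rfl
  intro t _
  rw [card_finsuppAntidiag_nat_eq_choose, Finset.card_univ]

/-- Coordinates of the vectors whose Gram matrix is the kernel. -/
noncomputable def gv (m : ℕ) (w : ℕ → ℝ) (x : ι → ℝ) (Y : MvPolynomial ι ℝ)
    (σ : Σ _ : ℕ, ι →₀ ℕ) : ℝ :=
  Real.sqrt (w σ.1 / Nn ι m σ.1 * fc σ.2) * coeff σ.2 (pw m x Y σ.1)

theorem GG_gram (hn : 5 ≤ Fintype.card ι) {m T : ℕ} {w : ℕ → ℝ} (hw : ∀ j, 0 ≤ w j)
    {W : Finset ℕ} (hW : W ⊆ range T) (hW0 : ∀ j, j ∉ W → w j = 0) {x x' : ι → ℝ}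
    {Y Y' : MvPolynomial ι ℝ} (hY : Hm m Y) :
    GG m T w x x' Y Y' = ∑ σ ∈ Sg ι m W, gv m w x Y σ * gv m w x' Y' σ := by
  unfold GG Sg
  rw [Finset.sum_sigma]
  have h1 : ∑ t ∈ range T, w t / Nn ι m t * fi (pw m x Y t) (pw m x' Y' t)
      = ∑ t ∈ W, w t / Nn ι m t * fi (pw m x Y t) (pw m x' Y' t) := by
    symm
    apply Finset.sum_subset hW
    intro t _ ht
    rw [hW0 t ht]
    simp
  rw [h1]
  apply Finset.sum_congr rfl
  intro t _
  rw [fi_hom (pw_Hm (by omega) hY t).1, Finset.mul_sum]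
  apply Finset.sum_congr rfl
  intro s _
  unfold gv
  have h2 : 0 ≤ w t / Nn ι m t * fc s :=
    mul_nonneg (div_nonneg (hw t) (Nn_pos hn m t).le) (fc_pos s).le
  have h3 := Real.mul_self_sqrt h2
  calc w t / Nn ι m t * (fc s * (coeff s (pw m x Y t) * coeff s (pw m x' Y' t)))
      = (w t / Nn ι m t * fc s) * (coeff s (pw m x Y t) * coeff s (pw m x' Y' t)) := by ring
    _ = (Real.sqrt (w t / Nn ι m t * fc s) * Real.sqrt (w t / Nn ι m t * fc s))
        * (coeff s (pw m x Y t) * coeff s (pw m x' Y' t)) := by rw [h3]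
    _ = _ := by ring

theorem GG_diag (hn : 5 ≤ Fintype.card ι) {m T : ℕ} {w : ℕ → ℝ} {x : ι → ℝ}
    (hx : ∑ a, x a * x a = 1) {Y Y' : MvPolynomial ι ℝ} (hY' : Hm m Y') (hd' : dx x Y' = 0) :
    GG m T w x x Y Y' = (∑ t ∈ range T, w t) * fi Y Y' := by
  unfold GG
  rw [Finset.sum_mul]
  apply Finset.sum_congr rfl
  intro t _
  have h1 := fi_pw hn hx hY' hd' t (Y := Y)
  rw [h1]
  have h2 := (Nn_pos hn m t).ne'
  show w t / Nn ι m t * (Nn ι m t * fi Y Y') = _
  field_simp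

/-- Lower bound for the Frobenius norm of a Gram matrix. -/
theorem gram_sq_ge {κ σ : Type*} (S : Finset κ) (R : Finset σ) (g : κ → σ → ℝ) :
    (∑ i ∈ S, ∑ s ∈ R, g i s * g i s) ^ 2
      ≤ (R.card : ℝ) * ∑ i ∈ S, ∑ j ∈ S, (∑ s ∈ R, g i s * g j s) ^ 2 := by
  have h1 : ∑ i ∈ S, ∑ j ∈ S, (∑ s ∈ R, g i s * g j s) ^ 2
      = ∑ s ∈ R, ∑ r ∈ R, (∑ i ∈ S, g i s * g i r) ^ 2 := by
    have e1 : ∀ i j, (∑ s ∈ R, g i s * g j s) ^ 2
        = ∑ s ∈ R, ∑ r ∈ R, (g i s * g i r) * (g j s * g j r) := by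
      intro i j
      rw [sq, Finset.sum_mul_sum]
      apply Finset.sum_congr rfl
      intro s _
      apply Finset.sum_congr rfl
      intro r _
      ring
    have e2 : ∀ s r, (∑ i ∈ S, g i s * g i r) ^ 2
        = ∑ i ∈ S, ∑ j ∈ S, (g i s * g i r) * (g j s * g j r) := by
      intro s r
      rw [sq, Finset.sum_mul_sum]
    simp only [e1, e2]
    calc ∑ i ∈ S, ∑ j ∈ S, ∑ s ∈ R, ∑ r ∈ R, (g i s * g i r) * (g j s * g j r)
        = ∑ i ∈ S, ∑ s ∈ R, ∑ j ∈ S, ∑ r ∈ R, (g i s * g i r) * (g j s * g j r) := by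
          apply Finset.sum_congr rfl
          intro i _
          rw [Finset.sum_comm]
      _ = ∑ s ∈ R, ∑ i ∈ S, ∑ j ∈ S, ∑ r ∈ R, (g i s * g i r) * (g j s * g j r) := by
          rw [Finset.sum_comm]
      _ = ∑ s ∈ R, ∑ i ∈ S, ∑ r ∈ R, ∑ j ∈ S, (g i s * g i r) * (g j s * g j r) := by
          apply Finset.sum_congr rfl
          intro s _
          apply Finset.sum_congr rfl
          intro i _
          rw [Finset.sum_comm]
      _ = _ := by
          apply Finset.sum_congr rfl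
          intro s _
          rw [Finset.sum_comm]
  have h2 : ∑ s ∈ R, (∑ i ∈ S, g i s * g i s) ^ 2
      ≤ ∑ s ∈ R, ∑ r ∈ R, (∑ i ∈ S, g i s * g i r) ^ 2 := by
    apply Finset.sum_le_sum
    intro s hs
    exact Finset.single_le_sum (f := fun r => (∑ i ∈ S, g i s * g i r) ^ 2)
      (fun r _ => sq_nonneg _) hs
  rw [h1]
  rw [Finset.sum_comm]
  have h3 := sq_sum_le_card_mul_sum_sq (s := R) (f := fun s => ∑ i ∈ S, g i s * g i s)
  exact h3.trans (mul_le_mul_of_nonneg_left h2 (Nat.cast_nonneg _))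

theorem bound_of_family (hn : 5 ≤ Fintype.card ι) {m : ℕ} (hm : 1 ≤ m) {w : ℕ → ℝ} {T : ℕ}
    (hw : ∀ j, 0 ≤ w j) {W : Finset ℕ} (hW : W ⊆ range T) (hW0 : ∀ j, j ∉ W → w j = 0)
    (hpos : 0 < ∑ t ∈ range T, w t) {l s : ℝ}
    (h0 : l * w 0 ≤ bec (Fintype.card ι) m 1 * w 1)
    (hL : ∀ j, l * w (j + 1) ≤ alc (Fintype.card ι) m j * w j
      + bec (Fintype.card ι) m (j + 2) * w (j + 2)) (hsl : s ≤ l) (hs1 : s ≤ 1)
    (C : Finset (ι → ℝ)) (hC : ∀ x ∈ C, ∑ a, x a * x a = 1)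
    (hC2 : ∀ x ∈ C, ∀ y ∈ C, x ≠ y → ∑ a, x a * y a ≤ s)
    {D : ℕ} (Y : (ι → ℝ) → Fin D → MvPolynomial ι ℝ) (hY : ∀ x ∈ C, ∀ a, Hm m (Y x a))
    (hd : ∀ x ∈ C, ∀ a, dx x (Y x a) = 0)
    (ho : ∀ x ∈ C, ∀ a b, fi (Y x a) (Y x b) = if a = b then 1 else 0) :
    (C.card : ℝ) * ((l - s) * D)
      ≤ (1 - s) * ∑ t ∈ W, (((Fintype.card ι + (m + t) - 1).choose (m + t) : ℕ) : ℝ) := by
  classical
  set S : Finset ((ι → ℝ) × Fin D) := C ×ˢ univ with hS
  set X : (ι → ℝ) × Fin D → ι → ℝ := fun p => p.1 with hX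
  set Z : (ι → ℝ) × Fin D → MvPolynomial ι ℝ := fun p => Y p.1 p.2 with hZ
  have hx : ∀ p ∈ S, ∑ a, X p a * X p a = 1 := fun p hp => hC _ (mem_product.1 hp).1
  have hYS : ∀ p ∈ S, Hm m (Z p) := fun p hp => hY _ (mem_product.1 hp).1 _
  have hdS : ∀ p ∈ S, dx (X p) (Z p) = 0 := fun p hp => hd _ (mem_product.1 hp).1 _
  have hT : ∀ j, T ≤ j → w j = 0 := by
    intro j hj
    apply hW0
    intro h
    have := mem_range.1 (hW h)
    omega
  set G : (ι → ℝ) × Fin D → (ι → ℝ) × Fin D → ℝ :=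
    fun p q => GG m T w (X p) (X q) (Z p) (Z q) with hG
  set R := Sg ι m W with hR
  have hgram : ∀ p ∈ S, ∀ q, G p q
      = ∑ σ ∈ R, gv m w (X p) (Z p) σ * gv m w (X q) (Z q) σ := by
    intro p hp q
    exact GG_gram hn hw hW hW0 (hYS p hp)
  set TT := ∑ p ∈ S, ∑ q ∈ S, (G p q) ^ 2 with hTT
  -- (1)
  have h1 : l * TT ≤ ∑ p ∈ S, ∑ q ∈ S, (∑ a, X p a * X q a) * (G p q) ^ 2 := by
    have hlev : ∀ σ ∈ R, l * ∑ p ∈ S, ∑ q ∈ S, gv m w (X p) (Z p) σ * gv m w (X q) (Z q) σ * G p q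
        ≤ ∑ p ∈ S, ∑ q ∈ S, gv m w (X p) (Z p) σ * gv m w (X q) (Z q) σ *
          ((∑ a, X p a * X q a) * G p q) := by
      intro σ _
      exact level hn hm S X Z hx hYS hdS hw hT h0 hL (fun p => gv m w (X p) (Z p) σ)
    have hsum := Finset.sum_le_sum hlev
    rw [← Finset.mul_sum] at hsum
    have e1 : ∑ σ ∈ R, ∑ p ∈ S, ∑ q ∈ S, gv m w (X p) (Z p) σ * gv m w (X q) (Z q) σ * G p q
        = TT := by
      rw [Finset.sum_comm, hTT]
      apply Finset.sum_congr rfl
      intro p hp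
      rw [Finset.sum_comm]
      apply Finset.sum_congr rfl
      intro q _
      rw [← Finset.sum_mul, ← hgram p hp q]
      ring
    have e2 : ∑ σ ∈ R, ∑ p ∈ S, ∑ q ∈ S, gv m w (X p) (Z p) σ * gv m w (X q) (Z q) σ *
          ((∑ a, X p a * X q a) * G p q)
        = ∑ p ∈ S, ∑ q ∈ S, (∑ a, X p a * X q a) * (G p q) ^ 2 := by
      rw [Finset.sum_comm]
      apply Finset.sum_congr rfl
      intro p hp
      rw [Finset.sum_comm]
      apply Finset.sum_congr rfl
      intro q _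
      rw [← Finset.sum_mul, ← hgram p hp q]
      ring
    rw [e1, e2] at hsum
    exact hsum
  -- (2)
  set M := ∑ t ∈ range T, w t with hM
  have h2 : ∑ p ∈ S, ∑ q ∈ S, (∑ a, X p a * X q a) * (G p q) ^ 2
      ≤ s * TT + (1 - s) * ((C.card : ℝ) * D * M ^ 2) := by
    have hterm : ∀ p ∈ S, ∀ q ∈ S, (∑ a, X p a * X q a) * (G p q) ^ 2
        ≤ s * (G p q) ^ 2 + (1 - s) * (if p.1 = q.1 then (G p q) ^ 2 else 0) := by
      intro p hp q hq
      by_cases hpq : p.1 = q.1
      · rw [if_pos hpq]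
        have : ∑ a, X p a * X q a = 1 := by
          have := hx p hp
          simp only [hX] at this ⊢
          rw [← hpq]
          exact this
        rw [this]
        apply le_of_eq
        ring
      · rw [if_neg hpq]
        have := hC2 p.1 (mem_product.1 hp).1 q.1 (mem_product.1 hq).1 hpq
        have h3 := mul_le_mul_of_nonneg_right this (sq_nonneg (G p q))
        simp only [hX]
        linarith
    refine (Finset.sum_le_sum fun p hp => Finset.sum_le_sum fun q hq => hterm p hp q hq).trans ?_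
    simp only [Finset.sum_add_distrib, ← Finset.mul_sum]
    rw [← hTT]
    have e3 : ∑ p ∈ S, ∑ q ∈ S, (if p.1 = q.1 then (G p q) ^ 2 else 0)
        = (C.card : ℝ) * D * M ^ 2 := by
      have e4 : ∀ p ∈ S, ∑ q ∈ S, (if p.1 = q.1 then (G p q) ^ 2 else 0) = M ^ 2 := by
        rintro ⟨x, a⟩ hp
        have hxC : x ∈ C := (mem_product.1 hp).1
        rw [hS, Finset.sum_product]
        rw [Finset.sum_eq_single x]
        · simp only [if_true]
          rw [Finset.sum_eq_single a]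
          · have : G (x, a) (x, a) = M := by
              simp only [hG, hX, hZ]
              rw [GG_diag hn (hC x hxC) (hY x hxC a) (hd x hxC a), ho x hxC a a, if_pos rfl,
                mul_one]
            rw [this]
          · intro b _ hb
            have : G (x, a) (x, b) = 0 := by
              simp only [hG, hX, hZ]
              rw [GG_diag hn (hC x hxC) (hY x hxC b) (hd x hxC b), ho x hxC a b,
                if_neg (Ne.symm hb), mul_zero]
            rw [this]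
            ring
          · intro h
            exact absurd (mem_univ a) h
        · intro y _ hy
          apply Finset.sum_eq_zero
          intro b _
          rw [if_neg]
          exact fun h => hy h.symm
        · intro h
          exact absurd hxC h
      rw [Finset.sum_congr rfl e4, Finset.sum_const, nsmul_eq_mul, hS, Finset.card_product,
        Finset.card_univ, Fintype.card_fin]
      push_cast
      ring
    rw [e3]
  -- (3)
  have h3 : ((C.card : ℝ) * D * M) ^ 2 ≤ (R.card : ℝ) * TT := by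
    have := gram_sq_ge S R (fun p σ => gv m w (X p) (Z p) σ)
    have e5 : ∑ p ∈ S, ∑ σ ∈ R, gv m w (X p) (Z p) σ * gv m w (X p) (Z p) σ
        = (C.card : ℝ) * D * M := by
      have e6 : ∀ p ∈ S, ∑ σ ∈ R, gv m w (X p) (Z p) σ * gv m w (X p) (Z p) σ = M := by
        rintro ⟨x, a⟩ hp
        have hxC : x ∈ C := (mem_product.1 hp).1
        rw [← hgram _ hp]
        simp only [hG, hX, hZ]
        rw [GG_diag hn (hC x hxC) (hY x hxC a) (hd x hxC a), ho x hxC a a, if_pos rfl, mul_one]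
      rw [Finset.sum_congr rfl e6, Finset.sum_const, nsmul_eq_mul, hS, Finset.card_product,
        Finset.card_univ, Fintype.card_fin]
      push_cast
      ring
    rw [e5] at this
    refine this.trans (le_of_eq ?_)
    congr 1
    apply Finset.sum_congr rfl
    intro p hp
    apply Finset.sum_congr rfl
    intro q _
    rw [hgram p hp q]
  -- conclusion
  have hRc : (R.card : ℝ) = ∑ t ∈ W, (((Fintype.card ι + (m + t) - 1).choose (m + t) : ℕ) : ℝ) := by
    rw [hR, card_Sg]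
    push_cast
    rfl
  rw [← hRc]
  have h4 : (l - s) * TT ≤ (1 - s) * ((C.card : ℝ) * D * M ^ 2) := by linarith
  have hR0 : (0 : ℝ) ≤ R.card := Nat.cast_nonneg _
  have h5 : (l - s) * ((C.card : ℝ) * D * M) ^ 2
      ≤ (R.card : ℝ) * ((1 - s) * ((C.card : ℝ) * D * M ^ 2)) := by
    calc (l - s) * ((C.card : ℝ) * D * M) ^ 2 ≤ (l - s) * ((R.card : ℝ) * TT) :=
          mul_le_mul_of_nonneg_left h3 (by linarith)
      _ = (R.card : ℝ) * ((l - s) * TT) := by ring
      _ ≤ _ := mul_le_mul_of_nonneg_left h4 hR0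
  rcases eq_or_lt_of_le (show (0 : ℝ) ≤ (C.card : ℝ) * D by positivity) with hz | hz
  · have : (C.card : ℝ) * ((l - s) * D) = 0 := by
      have : (C.card : ℝ) * ((l - s) * D) = (l - s) * ((C.card : ℝ) * D) := by ring
      rw [this, ← hz, mul_zero]
    rw [this]
    apply mul_nonneg (by linarith) hR0
  · have hq : 0 < (C.card : ℝ) * D * M ^ 2 := by positivity
    have h6 : ((C.card : ℝ) * ((l - s) * D)) * ((C.card : ℝ) * D * M ^ 2)
        ≤ ((1 - s) * (R.card : ℝ)) * ((C.card : ℝ) * D * M ^ 2) := by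
      calc ((C.card : ℝ) * ((l - s) * D)) * ((C.card : ℝ) * D * M ^ 2)
          = (l - s) * ((C.card : ℝ) * D * M) ^ 2 := by ring
        _ ≤ _ := h5
        _ = _ := by ring
    exact le_of_mul_le_mul_right h6 hq

end Pool.Agent.Lib.MP_b2bfca_co
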