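import Pool.Agent.Lib.MP_b2bfca_co.Dim
import Pool.Agent.Lib.MP_b2bfca_co.Defs

/-!
# The finite bound for spherical codes
-/

set_option autoImplicit false
set_option linter.unusedSectionVars false

namespace Pool.Agent.Lib.MP_b2bfca_co

open Finset MvPolynomial

/-- The harmonic kernel bound: a spherical code with inner products at most `s` has at most
`(1 - s)/(l - s) * (∑ dim Harm_(m+j)(R^n)) / dim Harm_m(R^(n-1))` elements (with the obvious
bounds for the dimensions) as soon as the weights `w` satisfy the level inequality for `l`. -/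
theorem finite_bound {n m : ℕ} (hn : 5 ≤ n) (hm : 1 ≤ m) {w : ℕ → ℝ} {j0 J : ℕ}
    (hw : ∀ j, 0 ≤ w j) (hlo : ∀ j, j < j0 → w j = 0) (hhi : ∀ j, J < j → w j = 0)
    (hpos : 0 < ∑ j ∈ Icc j0 J, w j) {l s : ℝ}
    (h0 : l * w 0 ≤ bec n m 1 * w 1)
    (hL : ∀ j, l * w (j + 1) ≤ alc n m j * w j + bec n m (j + 2) * w (j + 2))
    (hsl : s ≤ l) (hs1 : s ≤ 1) {S : Finset (EuclideanSpace ℝ (Fin n))} (hS : SphCode n s S) :
    (S.card : ℝ) * ((l - s) * ((((n + m - 2).choose m : ℕ) : ℝ)
        - (((n + m - 3).choose (m - 2) : ℕ) : ℝ)))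
      ≤ (1 - s) * ∑ j ∈ Icc j0 J, (((n + m + j - 1).choose (m + j) : ℕ) : ℝ) := by
  classical
  have hcard : Fintype.card (Fin n) = n := Fintype.card_fin n
  set C : Finset (Fin n → ℝ) := S.image fun x => (fun i => x i) with hC
  have hinj : ∀ x y : EuclideanSpace ℝ (Fin n),
      (fun i => x i) = (fun i => y i) → x = y := by
    intro x y h
    ext i
    exact congrFun h i
  have hCc : C.card = S.card := by
    rw [hC]
    apply Finset.card_image_of_injective
    intro x y h
    exact hinj x y h
  have hin : ∀ x y : EuclideanSpace ℝ (Fin n), inner ℝ x y = ∑ a, x a * y a := by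
    intro x y
    rw [PiLp.inner_apply]
    apply Finset.sum_congr rfl
    intro i _
    simp only [RCLike.inner_apply, conj_trivial]
    ring
  have hfam : ∀ x : Fin n → ℝ, ∃ Y : Fin ((Fintype.card (Fin n) + m - 2).choose m
      - (Fintype.card (Fin n) + m - 3).choose (m - 2)) → MvPolynomial (Fin n) ℝ,
      (∀ a, Hm m (Y a)) ∧ (∀ a, dx x (Y a) = 0) ∧
      ∀ a b, fi (Y a) (Y b) = if a = b then 1 else 0 := fun x =>
    exists_family (by rw [hcard]; exact hn) hm x
  choose Y hY1 hY2 hY3 using hfam
  have hsum : ∑ t ∈ range (J + 1), w t = ∑ j ∈ Icc j0 J, w j := by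
    symm
    apply Finset.sum_subset
    · intro j hj
      rw [mem_Icc] at hj
      exact mem_range.2 (by omega)
    · intro j hj hj2
      apply hlo
      rw [mem_Icc] at hj2
      have := mem_range.1 hj
      omega
  have hmain := bound_of_family (ι := Fin n) (by rw [hcard]; exact hn) hm (w := w) (T := J + 1)
    hw (W := Icc j0 J) (by
      intro j hj
      rw [mem_Icc] at hj
      exact mem_range.2 (by omega)) (by
      intro j hj
      rw [mem_Icc, not_and_or, not_le, not_le] at hj
      rcases hj with hj | hj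
      · exact hlo j hj
      · exact hhi j hj) (by rw [hsum]; exact hpos) (l := l) (s := s)
    (by rw [hcard]; exact h0) (by rw [hcard]; exact hL) hsl hs1 C (by
      intro x hx
      rw [hC, mem_image] at hx
      obtain ⟨y, hy, rfl⟩ := hx
      have h1 := hS.1 y hy
      have h2 := hin y y
      rw [real_inner_self_eq_norm_sq, h1] at h2
      linarith) (by
      intro x hx y hy hxy
      rw [hC, mem_image] at hx hy
      obtain ⟨x', hx', rfl⟩ := hx
      obtain ⟨y', hy', rfl⟩ := hy
      have hne : x' ≠ y' := fun h => hxy (by rw [h])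
      have h2 := hS.2 x' hx' y' hy' hne
      rw [hin] at h2
      exact h2) Y (fun x _ a => hY1 x a) (fun x _ a => hY2 x a) (fun x _ a b => hY3 x a b)
  rw [hCc, hcard] at hmain
  have e : ∀ t ∈ Icc j0 J, (((n + (m + t) - 1).choose (m + t) : ℕ) : ℝ)
      = (((n + m + t - 1).choose (m + t) : ℕ) : ℝ) := by
    intro t _
    rw [← add_assoc]
  rw [Finset.sum_congr rfl e] at hmain
  refine le_trans ?_ hmain
  apply mul_le_mul_of_nonneg_left _ (Nat.cast_nonneg _)
  apply mul_le_mul_of_nonneg_left _ (by linarith)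
  have h9 : (n + m - 2).choose m ≤ ((n + m - 2).choose m - (n + m - 3).choose (m - 2))
      + (n + m - 3).choose (m - 2) := by omega
  have h10 : (((n + m - 2).choose m : ℕ) : ℝ)
      ≤ (((n + m - 2).choose m - (n + m - 3).choose (m - 2) : ℕ) : ℝ)
        + (((n + m - 3).choose (m - 2) : ℕ) : ℝ) := by exact_mod_cast h9
  linarith

end Pool.Agent.Lib.MP_b2bfca_co
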