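import Mathlib

/-!
# The Fischer inner product and directional creation operators on harmonic polynomials
-/

set_option autoImplicit false
set_option linter.unusedSectionVars false

namespace Pool.Agent.Lib.MP_b2bfca_co

open Finset MvPolynomial

variable {ι : Type*} [Fintype ι] [DecidableEq ι]

/-- The product of the factorials of the exponents. -/
noncomputable def fc (s : ι →₀ ℕ) : ℝ := ∏ i, ((s i).factorial : ℝ)

theorem fc_pos (s : ι →₀ ℕ) : 0 < fc s :=
  Finset.prod_pos fun i _ => by exact_mod_cast Nat.factorial_pos _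

theorem fc_add_single (s : ι →₀ ℕ) (a : ι) :
    fc (s + Finsupp.single a 1) = fc s * ((s a : ℝ) + 1) := by
  unfold fc
  rw [← Finset.mul_prod_erase univ _ (mem_univ a), ← Finset.mul_prod_erase univ _ (mem_univ a)]
  have h1 : ∀ i ∈ univ.erase a, (((s + Finsupp.single a 1 : ι →₀ ℕ) i).factorial : ℝ)
      = ((s i).factorial : ℝ) := by
    intro i hi
    have : a ≠ i := (Finset.ne_of_mem_erase hi).symm
    simp [Finsupp.single_eq_of_ne this.symm]
  rw [Finset.prod_congr rfl h1]
  simp only [Finsupp.add_apply, Finsupp.single_eq_same, Nat.factorial_succ]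
  push_cast
  ring

/-- The Fischer form as a function. -/
noncomputable def fi0 (p q : MvPolynomial ι ℝ) : ℝ :=
  ∑ s ∈ p.support, fc s * (coeff s p * coeff s q)

theorem fi0_eq {p : MvPolynomial ι ℝ} (q : MvPolynomial ι ℝ) {S : Finset (ι →₀ ℕ)}
    (h : p.support ⊆ S) : fi0 p q = ∑ s ∈ S, fc s * (coeff s p * coeff s q) := by
  unfold fi0
  apply Finset.sum_subset h
  intro s _ hs
  rw [MvPolynomial.notMem_support_iff.1 hs]
  ring

/-- The Fischer form. -/
noncomputable def fi : MvPolynomial ι ℝ →ₗ[ℝ] MvPolynomial ι ℝ →ₗ[ℝ] ℝ :=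
  LinearMap.mk₂ ℝ fi0
    (by
      classical
      intro p p' q
      rw [fi0_eq q (subset_union_left : p.support ⊆ p.support ∪ p'.support),
        fi0_eq q (subset_union_right : p'.support ⊆ p.support ∪ p'.support),
        fi0_eq q (MvPolynomial.support_add : (p + p').support ⊆ p.support ∪ p'.support),
        ← Finset.sum_add_distrib]
      apply Finset.sum_congr rfl
      intro s _
      rw [coeff_add]
      ring)
    (by
      intro c p q
      rw [fi0_eq q (MvPolynomial.support_smul : (c • p).support ⊆ p.support)]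
      unfold fi0
      rw [smul_eq_mul, Finset.mul_sum]
      apply Finset.sum_congr rfl
      intro s _
      rw [coeff_smul, smul_eq_mul]
      ring)
    (by
      intro p q q'
      unfold fi0
      rw [← Finset.sum_add_distrib]
      apply Finset.sum_congr rfl
      intro s _
      rw [coeff_add]
      ring)
    (by
      intro c p q
      unfold fi0
      rw [smul_eq_mul, Finset.mul_sum]
      apply Finset.sum_congr rfl
      intro s _
      rw [coeff_smul, smul_eq_mul]
      ring)

theorem fi_def (p q : MvPolynomial ι ℝ) : fi p q = ∑ s ∈ p.support, fc s * (coeff s p * coeff s q) :=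
  rfl

theorem fi_eq {p : MvPolynomial ι ℝ} (q : MvPolynomial ι ℝ) {S : Finset (ι →₀ ℕ)}
    (h : p.support ⊆ S) : fi p q = ∑ s ∈ S, fc s * (coeff s p * coeff s q) := fi0_eq q h

theorem fi_comm (p q : MvPolynomial ι ℝ) : fi p q = fi q p := by
  classical
  rw [fi_eq q (subset_union_left : p.support ⊆ p.support ∪ q.support),
    fi_eq p (subset_union_right : q.support ⊆ p.support ∪ q.support)]
  apply Finset.sum_congr rfl
  intro s _
  ring

theorem fi_self_nonneg (p : MvPolynomial ι ℝ) : 0 ≤ fi p p := by
  rw [fi_def]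
  apply Finset.sum_nonneg
  intro s _
  have := (fc_pos s).le
  have := mul_self_nonneg (coeff s p)
  positivity

theorem fi_monomial_left (s : ι →₀ ℕ) (c : ℝ) (q : MvPolynomial ι ℝ) :
    fi (monomial s c) q = fc s * (c * coeff s q) := by
  classical
  rw [fi_eq q (MvPolynomial.support_monomial_subset : (monomial s c).support ⊆ {s})]
  simp

theorem fi_X_mul (a : ι) (p q : MvPolynomial ι ℝ) : fi (X a * p) q = fi p (pderiv a q) := by
  induction p using MvPolynomial.induction_on' with
  | monomial s c =>
    have e : (X a * monomial s c : MvPolynomial ι ℝ) = monomial (s + Finsupp.single a 1) c := by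
      rw [MvPolynomial.X, monomial_mul, one_mul, add_comm]
    rw [e, fi_monomial_left, fi_monomial_left, coeff_pderiv, fc_add_single]
    ring
  | add p p' hp hp' =>
    rw [mul_add, map_add, map_add, LinearMap.add_apply, LinearMap.add_apply, hp, hp']

theorem fi_mul_X (a : ι) (p q : MvPolynomial ι ℝ) : fi p (X a * q) = fi (pderiv a p) q := by
  rw [fi_comm, fi_X_mul, fi_comm]

/-- The Laplacian. -/
noncomputable def lap (p : MvPolynomial ι ℝ) : MvPolynomial ι ℝ := ∑ a, pderiv a (pderiv a p)

/-- The squared norm of the variable. -/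
noncomputable def r2 : MvPolynomial ι ℝ := ∑ a, X a * X a

/-- The linear form `⟨x, y⟩`. -/
noncomputable def lx (x : ι → ℝ) : MvPolynomial ι ℝ := ∑ a, C (x a) * X a

/-- The derivative in the direction `x`. -/
noncomputable def dx (x : ι → ℝ) (p : MvPolynomial ι ℝ) : MvPolynomial ι ℝ :=
  ∑ a, C (x a) * pderiv a p

theorem fi_C_mul_left (c : ℝ) (p q : MvPolynomial ι ℝ) : fi (C c * p) q = c * fi p q := by
  rw [C_mul', map_smul, LinearMap.smul_apply, smul_eq_mul]

theorem fi_C_mul_right (c : ℝ) (p q : MvPolynomial ι ℝ) : fi p (C c * q) = c * fi p q := by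
  rw [C_mul', map_smul, smul_eq_mul]

theorem fi_sum_left {κ : Type*} (S : Finset κ) (p : κ → MvPolynomial ι ℝ)
    (q : MvPolynomial ι ℝ) : fi (∑ i ∈ S, p i) q = ∑ i ∈ S, fi (p i) q := by
  rw [map_sum, LinearMap.sum_apply]

theorem fi_sum_right {κ : Type*} (S : Finset κ) (p : MvPolynomial ι ℝ)
    (q : κ → MvPolynomial ι ℝ) : fi p (∑ i ∈ S, q i) = ∑ i ∈ S, fi p (q i) := by
  rw [map_sum]

theorem fi_lx_mul (x : ι → ℝ) (p q : MvPolynomial ι ℝ) : fi (lx x * p) q = fi p (dx x q) := by
  unfold lx dx
  rw [Finset.sum_mul, fi_sum_left, fi_sum_right]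
  apply Finset.sum_congr rfl
  intro a _
  rw [mul_assoc, fi_C_mul_left, fi_C_mul_right, fi_X_mul]

theorem fi_r2_mul (p q : MvPolynomial ι ℝ) : fi (r2 * p) q = fi p (lap q) := by
  unfold r2 lap
  rw [Finset.sum_mul, fi_sum_left, fi_sum_right]
  apply Finset.sum_congr rfl
  intro a _
  rw [mul_assoc, fi_X_mul, fi_X_mul]

end Pool.Agent.Lib.MP_b2bfca_co
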