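import Pool.Agent.Lib.MP_b2bfca_co.Fischer

/-!
# Harmonic polynomials and directional creation operators
-/

set_option autoImplicit false
set_option linter.unusedSectionVars false

namespace Pool.Agent.Lib.MP_b2bfca_co

open Finset MvPolynomial

variable {ι : Type*} [Fintype ι] [DecidableEq ι]

/-- Homogeneous harmonic polynomials of degree `k`. -/
def Hm (k : ℕ) (p : MvPolynomial ι ℝ) : Prop := p.IsHomogeneous k ∧ lap p = 0

/-- `1 / (n + 2 k - 2)`. -/
noncomputable def al (ι : Type*) [Fintype ι] (k : ℕ) : ℝ := 1 / ((Fintype.card ι : ℝ) + 2 * k - 2)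

/-- The creation operator in the direction `x` on harmonic polynomials of degree `k`. -/
noncomputable def cx (k : ℕ) (x : ι → ℝ) (p : MvPolynomial ι ℝ) : MvPolynomial ι ℝ :=
  lx x * p - C (al ι k) * (r2 * dx x p)

theorem C_two : (C 2 : MvPolynomial ι ℝ) = 2 := by
  rw [← map_ofNat (C : ℝ →+* MvPolynomial ι ℝ) 2]

theorem C_four : (C 4 : MvPolynomial ι ℝ) = 4 := by
  rw [← map_ofNat (C : ℝ →+* MvPolynomial ι ℝ) 4]

theorem C_nat (k : ℕ) : (C (k : ℝ) : MvPolynomial ι ℝ) = (k : MvPolynomial ι ℝ) :=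
  map_natCast C k

theorem lap_add (p q : MvPolynomial ι ℝ) : lap (p + q) = lap p + lap q := by
  simp [lap, Finset.sum_add_distrib]

theorem lap_sub (p q : MvPolynomial ι ℝ) : lap (p - q) = lap p - lap q := by
  simp [lap, Finset.sum_sub_distrib]

theorem lap_C_mul (c : ℝ) (p : MvPolynomial ι ℝ) : lap (C c * p) = C c * lap p := by
  simp only [lap, pderiv_C_mul, Finset.mul_sum]

theorem lap_sum {κ : Type*} (S : Finset κ) (p : κ → MvPolynomial ι ℝ) :
    lap (∑ i ∈ S, p i) = ∑ i ∈ S, lap (p i) := by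
  simp only [lap, map_sum]
  rw [Finset.sum_comm]

theorem dx_add (x : ι → ℝ) (p q : MvPolynomial ι ℝ) : dx x (p + q) = dx x p + dx x q := by
  simp [dx, mul_add, Finset.sum_add_distrib]

theorem dx_sub (x : ι → ℝ) (p q : MvPolynomial ι ℝ) : dx x (p - q) = dx x p - dx x q := by
  simp [dx, mul_sub, Finset.sum_sub_distrib]

theorem dx_C_mul (x : ι → ℝ) (c : ℝ) (p : MvPolynomial ι ℝ) : dx x (C c * p) = C c * dx x p := by
  simp only [dx, pderiv_C_mul, Finset.mul_sum]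
  apply Finset.sum_congr rfl
  intro a _
  ring

theorem dx_mul (x : ι → ℝ) (p q : MvPolynomial ι ℝ) :
    dx x (p * q) = dx x p * q + p * dx x q := by
  simp only [dx, pderiv_mul, Finset.sum_mul, Finset.mul_sum, ← Finset.sum_add_distrib]
  apply Finset.sum_congr rfl
  intro a _
  ring

theorem pderiv_lx (a : ι) (x : ι → ℝ) : pderiv a (lx x) = C (x a) := by
  unfold lx
  rw [map_sum]
  rw [Finset.sum_eq_single a]
  · rw [pderiv_C_mul, pderiv_X_self, mul_one]
  · intro b _ hb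
    rw [pderiv_C_mul, pderiv_X_of_ne hb, mul_zero]
  · simp

theorem pderiv_r2 (a : ι) : pderiv a (r2 : MvPolynomial ι ℝ) = 2 * X a := by
  unfold r2
  rw [map_sum]
  rw [Finset.sum_eq_single a]
  · rw [pderiv_mul, pderiv_X_self]
    ring
  · intro b _ hb
    rw [pderiv_mul, pderiv_X_of_ne hb]
    ring
  · simp

theorem dx_lx (x y : ι → ℝ) : dx x (lx y) = C (∑ a, x a * y a) := by
  unfold dx
  simp only [pderiv_lx, map_sum, map_mul]

theorem dx_r2 (x : ι → ℝ) : dx x r2 = 2 * lx x := by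
  unfold dx lx
  simp only [pderiv_r2, Finset.mul_sum]
  apply Finset.sum_congr rfl
  intro a _
  ring

theorem lap_mul (p q : MvPolynomial ι ℝ) :
    lap (p * q) = lap p * q + 2 * (∑ a, pderiv a p * pderiv a q) + p * lap q := by
  simp only [lap, pderiv_mul, map_add, Finset.sum_mul, Finset.mul_sum, ← Finset.sum_add_distrib]
  apply Finset.sum_congr rfl
  intro a _
  ring

theorem lap_lx_mul (x : ι → ℝ) (p : MvPolynomial ι ℝ) :
    lap (lx x * p) = 2 * dx x p + lx x * lap p := by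
  rw [lap_mul]
  have h1 : lap (lx x) = 0 := by
    unfold lap
    simp [pderiv_lx]
  rw [h1]
  unfold dx
  simp only [pderiv_lx]
  ring

theorem lap_r2_mul {k : ℕ} {p : MvPolynomial ι ℝ} (hp : p.IsHomogeneous k) :
    lap (r2 * p) = C (2 * (Fintype.card ι : ℝ) + 4 * k) * p + r2 * lap p := by
  rw [lap_mul]
  have h1 : lap (r2 : MvPolynomial ι ℝ) = C (2 * (Fintype.card ι : ℝ)) := by
    unfold lap
    have : ∀ a : ι, pderiv a (pderiv a (r2 : MvPolynomial ι ℝ)) = C 2 := by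
      intro a
      rw [pderiv_r2]
      rw [← C_two, pderiv_C_mul, pderiv_X_self, mul_one]
    simp only [this, Finset.sum_const, Finset.card_univ, nsmul_eq_mul, map_mul, C_nat]
    ring
  have h2 : ∑ a, pderiv a (r2 : MvPolynomial ι ℝ) * pderiv a p = C (2 * (k : ℝ)) * p := by
    have := hp.sum_X_mul_pderiv
    have e : ∑ a, pderiv a (r2 : MvPolynomial ι ℝ) * pderiv a p
        = 2 * ∑ a, X a * pderiv a p := by
      rw [Finset.mul_sum]
      apply Finset.sum_congr rfl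
      intro a _
      rw [pderiv_r2]
      ring
    rw [e, this, nsmul_eq_mul, map_mul, C_two, C_nat]
    ring
  rw [h1, h2]
  simp only [map_add, map_mul, C_nat, C_two, C_four]
  ring

theorem pderiv_comm' (a b : ι) (p : MvPolynomial ι ℝ) :
    pderiv a (pderiv b p) = pderiv b (pderiv a p) := by
  ext s
  rw [coeff_pderiv, coeff_pderiv, coeff_pderiv, coeff_pderiv]
  by_cases h : a = b
  · subst h
    ring
  · have h1 : (s + Finsupp.single a 1 : ι →₀ ℕ) b = s b := by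
      simp [Finsupp.single_eq_of_ne (Ne.symm h)]
    have h2 : (s + Finsupp.single b 1 : ι →₀ ℕ) a = s a := by
      simp [Finsupp.single_eq_of_ne h]
    rw [h1, h2, add_right_comm]
    ring

theorem lap_pderiv (a : ι) (p : MvPolynomial ι ℝ) : lap (pderiv a p) = pderiv a (lap p) := by
  unfold lap
  rw [map_sum]
  apply Finset.sum_congr rfl
  intro b _
  rw [pderiv_comm' b a, pderiv_comm' b a]

theorem lap_dx (x : ι → ℝ) (p : MvPolynomial ι ℝ) : lap (dx x p) = dx x (lap p) := by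
  unfold dx
  rw [lap_sum]
  apply Finset.sum_congr rfl
  intro a _
  rw [lap_C_mul, lap_pderiv]

theorem dx_zero (x : ι → ℝ) : dx x 0 = 0 := by simp [dx]

theorem lap_zero : lap (0 : MvPolynomial ι ℝ) = 0 := by simp [lap]

theorem Hm.pderiv {k : ℕ} {p : MvPolynomial ι ℝ} (h : Hm k p) (a : ι) :
    Hm (k - 1) (MvPolynomial.pderiv a p) := by
  refine ⟨h.1.pderiv, ?_⟩
  rw [lap_pderiv, h.2, map_zero]

theorem Hm.add {k : ℕ} {p q : MvPolynomial ι ℝ} (hp : Hm k p) (hq : Hm k q) : Hm k (p + q) :=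
  ⟨hp.1.add hq.1, by rw [lap_add, hp.2, hq.2, add_zero]⟩

theorem Hm.C_mul {k : ℕ} {p : MvPolynomial ι ℝ} (hp : Hm k p) (c : ℝ) : Hm k (C c * p) := by
  refine ⟨?_, by rw [lap_C_mul, hp.2, mul_zero]⟩
  have := (isHomogeneous_C ι c).mul hp.1
  rwa [zero_add] at this

theorem Hm.sum {κ : Type*} {S : Finset κ} {k : ℕ} {p : κ → MvPolynomial ι ℝ}
    (h : ∀ i ∈ S, Hm k (p i)) : Hm k (∑ i ∈ S, p i) := by
  refine ⟨IsHomogeneous.sum _ _ _ fun i hi => (h i hi).1, ?_⟩
  rw [lap_sum]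
  exact Finset.sum_eq_zero fun i hi => (h i hi).2

theorem Hm.dx {k : ℕ} {p : MvPolynomial ι ℝ} (h : Hm k p) (x : ι → ℝ) :
    Hm (k - 1) (dx x p) := by
  unfold Pool.Agent.Lib.MP_b2bfca_co.dx
  exact Hm.sum fun a _ => (h.pderiv a).C_mul _

theorem dx_of_deg_zero {p : MvPolynomial ι ℝ} (h : p.IsHomogeneous 0) (x : ι → ℝ) :
    dx x p = 0 := by
  rw [← totalDegree_zero_iff_isHomogeneous, totalDegree_eq_zero_iff_eq_C] at h
  rw [h]
  simp [dx]

theorem lx_hom (x : ι → ℝ) : (lx x).IsHomogeneous 1 := by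
  unfold lx
  apply IsHomogeneous.sum
  intro a _
  have := (isHomogeneous_C ι (x a)).mul (isHomogeneous_X ℝ a)
  rwa [zero_add] at this

theorem r2_hom : (r2 : MvPolynomial ι ℝ).IsHomogeneous 2 := by
  unfold r2
  apply IsHomogeneous.sum
  intro a _
  exact (isHomogeneous_X ℝ a).mul (isHomogeneous_X ℝ a)

theorem Hm.cx (hn : 3 ≤ Fintype.card ι) {k : ℕ} {p : MvPolynomial ι ℝ} (h : Hm k p)
    (x : ι → ℝ) : Hm (k + 1) (cx k x p) := by
  have hn' : (3 : ℝ) ≤ (Fintype.card ι : ℝ) := by exact_mod_cast hn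
  rcases Nat.eq_zero_or_pos k with hk | hk
  · subst hk
    have h0 := dx_of_deg_zero h.1 x
    unfold Pool.Agent.Lib.MP_b2bfca_co.cx
    rw [h0, mul_zero, mul_zero, sub_zero]
    refine ⟨?_, ?_⟩
    · have := (lx_hom x).mul h.1
      rwa [add_comm] at this
    · rw [lap_lx_mul, h0, h.2]
      simp
  · obtain ⟨j, rfl⟩ : ∃ j, k = j + 1 := ⟨k - 1, by omega⟩
    have hd := h.dx x
    rw [Nat.add_sub_cancel] at hd
    unfold Pool.Agent.Lib.MP_b2bfca_co.cx
    refine ⟨?_, ?_⟩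
    · apply IsHomogeneous.sub
      · have := (lx_hom x).mul h.1
        rwa [add_comm] at this
      · have := (isHomogeneous_C ι (al ι (j + 1))).mul (r2_hom.mul hd.1)
        rw [zero_add] at this
        have e : 2 + j = j + 1 + 1 := by omega
        rwa [e] at this
    · rw [lap_sub, lap_lx_mul, lap_C_mul, lap_r2_mul hd.1, h.2, hd.2]
      simp only [mul_zero, add_zero]
      rw [← mul_assoc, ← map_mul]
      have e : al ι (j + 1) * (2 * (Fintype.card ι : ℝ) + 4 * j) = 2 := by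
        have h0 : (0 : ℝ) ≤ j := Nat.cast_nonneg j
        have h1 : (Fintype.card ι : ℝ) + 2 * ((j + 1 : ℕ) : ℝ) - 2 ≠ 0 := by
          push_cast
          nlinarith
        unfold al
        rw [div_mul_eq_mul_div, div_eq_iff h1]
        push_cast
        ring
      rw [e, C_two]
      ring

theorem fi_cx {k : ℕ} (x : ι → ℝ) (p : MvPolynomial ι ℝ) {q : MvPolynomial ι ℝ}
    (hq : lap q = 0) : fi (cx k x p) q = fi p (dx x q) := by
  unfold cx
  rw [map_sub, LinearMap.sub_apply, fi_lx_mul, fi_C_mul_left, fi_r2_mul, hq, map_zero, mul_zero,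
    sub_zero]

theorem dx_cx (hn : 3 ≤ Fintype.card ι) {k : ℕ} {p : MvPolynomial ι ℝ} (x : ι → ℝ) (hk : 1 ≤ k) :
    dx x (cx k x p) = C (∑ a, x a * x a) * p
      + C (((Fintype.card ι : ℝ) + 2 * k - 4) * al ι k) * cx (k - 1) x (dx x p) := by
  have hn' : (3 : ℝ) ≤ (Fintype.card ι : ℝ) := by exact_mod_cast hn
  obtain ⟨j, rfl⟩ : ∃ j, k = j + 1 := ⟨k - 1, by omega⟩
  unfold cx
  rw [dx_sub, dx_mul, dx_lx, dx_C_mul, dx_mul, dx_r2, Nat.add_sub_cancel]
  have e1 : C (((Fintype.card ι : ℝ) + 2 * ((j + 1 : ℕ) : ℝ) - 4) * al ι (j + 1))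
      = (1 - C (al ι (j + 1)) * 2 : MvPolynomial ι ℝ) := by
    have : ((Fintype.card ι : ℝ) + 2 * ((j + 1 : ℕ) : ℝ) - 4) * al ι (j + 1)
        = 1 - al ι (j + 1) * 2 := by
      unfold al
      have : (Fintype.card ι : ℝ) + 2 * ((j + 1 : ℕ) : ℝ) - 2 ≠ 0 := by
        push_cast
        have : (0 : ℝ) ≤ j := Nat.cast_nonneg j
        nlinarith
      field_simp
      ring
    rw [this, map_sub, map_mul, C_two, map_one]
  have e2 : (1 - C (al ι (j + 1)) * 2) * C (al ι j) = (C (al ι (j + 1)) : MvPolynomial ι ℝ) := by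
    have e3 : (1 - C (al ι (j + 1)) * 2 : MvPolynomial ι ℝ) = C (1 - al ι (j + 1) * 2) := by
      rw [map_sub, map_mul, C_two, map_one]
    rw [e3, ← map_mul]
    congr 1
    unfold al
    have h0 : (0 : ℝ) ≤ j := Nat.cast_nonneg j
    have h1 : (Fintype.card ι : ℝ) + 2 * ((j + 1 : ℕ) : ℝ) - 2 ≠ 0 := by
      push_cast
      nlinarith
    have h2 : (Fintype.card ι : ℝ) + 2 * (j : ℝ) - 2 ≠ 0 := by nlinarith
    field_simp
    push_cast
    ring
  rw [e1, mul_sub]
  have e4 : (1 - C (al ι (j + 1)) * 2) * (C (al ι j) * (r2 * dx x (dx x p)))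
      = C (al ι (j + 1)) * (r2 * dx x (dx x p)) := by
    rw [← mul_assoc, e2]
  rw [e4]
  ring

theorem dx_cx_zero {k : ℕ} {p : MvPolynomial ι ℝ} (x : ι → ℝ) (h : dx x p = 0) :
    dx x (cx k x p) = C (∑ a, x a * x a) * p := by
  unfold cx
  rw [h, dx_sub, dx_mul, dx_lx, dx_C_mul, h]
  simp [dx_zero]

/-- `c_x^j Y` for a harmonic `Y` of degree `m`. -/
noncomputable def pw (m : ℕ) (x : ι → ℝ) (Y : MvPolynomial ι ℝ) : ℕ → MvPolynomial ι ℝ
  | 0 => Y
  | j + 1 => cx (m + j) x (pw m x Y j)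

theorem pw_Hm (hn : 3 ≤ Fintype.card ι) {m : ℕ} {x : ι → ℝ} {Y : MvPolynomial ι ℝ}
    (hY : Hm m Y) (j : ℕ) : Hm (m + j) (pw m x Y j) := by
  induction j with
  | zero => exact hY
  | succ j ih => exact ih.cx hn x

theorem cx_C_mul (k : ℕ) (x : ι → ℝ) (c : ℝ) (p : MvPolynomial ι ℝ) :
    cx k x (C c * p) = C c * cx k x p := by
  unfold cx
  rw [dx_C_mul]
  ring

theorem cx_zero (k : ℕ) (x : ι → ℝ) : cx k x (0 : MvPolynomial ι ℝ) = 0 := by
  unfold cx
  simp [dx_zero]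

/-- The constants of the lowering relation. -/
noncomputable def rho (ι : Type*) [Fintype ι] (m j : ℕ) : ℝ :=
  (j : ℝ) * ((Fintype.card ι : ℝ) + 2 * m + j - 3) / ((Fintype.card ι : ℝ) + 2 * m + 2 * j - 4)

theorem dx_pw (hn : 5 ≤ Fintype.card ι) {m : ℕ} {x : ι → ℝ} (hx : ∑ a, x a * x a = 1)
    {Y : MvPolynomial ι ℝ} (hd : dx x Y = 0) (j : ℕ) :
    dx x (pw m x Y (j + 1)) = C (rho ι m (j + 1)) * pw m x Y j := by
  have hn' : (5 : ℝ) ≤ (Fintype.card ι : ℝ) := by exact_mod_cast hn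
  have hm : (0 : ℝ) ≤ m := Nat.cast_nonneg m
  induction j with
  | zero =>
    have e : rho ι m 1 = 1 := by
      unfold rho
      have h1 : (Fintype.card ι : ℝ) + 2 * m + 2 * ((1 : ℕ) : ℝ) - 4 ≠ 0 := by
        push_cast
        nlinarith
      rw [div_eq_iff h1]
      push_cast
      ring
    show dx x (cx (m + 0) x Y) = _
    rw [dx_cx_zero x hd, hx]
    simp [e, pw]
  | succ j ih =>
    have hj : (0 : ℝ) ≤ j := Nat.cast_nonneg j
    show dx x (cx (m + (j + 1)) x (pw m x Y (j + 1))) = _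
    rw [dx_cx (by omega) x (by omega), hx, ih]
    have e0 : m + (j + 1) - 1 = m + j := by omega
    rw [e0, cx_C_mul]
    show C 1 * pw m x Y (j + 1) + C (((Fintype.card ι : ℝ) + 2 * ((m + (j + 1) : ℕ) : ℝ) - 4)
      * al ι (m + (j + 1))) * (C (rho ι m (j + 1)) * pw m x Y (j + 1)) = _
    rw [← mul_assoc, ← map_mul, ← add_mul, ← map_add]
    congr 2
    unfold al rho
    push_cast
    have h1 : (Fintype.card ι : ℝ) + 2 * (m + (j + 1)) - 2 ≠ 0 := by nlinarith
    have h2 : (Fintype.card ι : ℝ) + 2 * m + 2 * (j + 1) - 4 ≠ 0 := by nlinarith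
    have h3 : (Fintype.card ι : ℝ) + 2 * m + 2 * (j + 1 + 1) - 4 ≠ 0 := by nlinarith
    field_simp
    ring

theorem fi_pw (hn : 5 ≤ Fintype.card ι) {m : ℕ} {x : ι → ℝ} (hx : ∑ a, x a * x a = 1)
    {Y Y' : MvPolynomial ι ℝ} (hY' : Hm m Y') (hd' : dx x Y' = 0)
    (j : ℕ) : fi (pw m x Y j) (pw m x Y' j) = (∏ i ∈ range j, rho ι m (i + 1)) * fi Y Y' := by
  induction j with
  | zero => simp [pw]
  | succ j ih =>
    show fi (cx (m + j) x (pw m x Y j)) (pw m x Y' (j + 1)) = _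
    rw [fi_cx x _ (pw_Hm (by omega) hY' (j + 1)).2, dx_pw hn hx hd' j, fi_C_mul_right, ih,
      Finset.prod_range_succ]
    ring

theorem rho_pos (hn : 5 ≤ Fintype.card ι) (m j : ℕ) : 0 < rho ι m (j + 1) := by
  have hn' : (5 : ℝ) ≤ (Fintype.card ι : ℝ) := by exact_mod_cast hn
  have hm : (0 : ℝ) ≤ m := Nat.cast_nonneg m
  have hj : (0 : ℝ) ≤ j := Nat.cast_nonneg j
  unfold rho
  push_cast
  apply div_pos
  · apply mul_pos <;> nlinarith
  · nlinarith

end Pool.Agent.Lib.MP_b2bfca_co
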