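import Pool.Agent.Lib.MP_b2bfca_co.Defs

/-!
# `κ_d` is at most the maximal size of a spherical code with angle `60` degrees
-/

set_option autoImplicit false

namespace Pool.Agent.Lib.MP_b2bfca_co

open Finset

theorem inner_le_half {V : Type*} [NormedAddCommGroup V] [InnerProductSpace ℝ V] {a b : V}
    {ρ : ℝ} (hρ : 0 < ρ) (ha : 2 * ρ ≤ ‖a‖) (hb : 2 * ρ ≤ ‖b‖)
    (hab : ‖a‖ + ‖b‖ - 2 * ρ ≤ ‖a - b‖) :
    inner ℝ ((‖a‖)⁻¹ • a) ((‖b‖)⁻¹ • b) ≤ 1 / 2 := by
  have ha0 : 0 < ‖a‖ := by linarith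
  have hb0 : 0 < ‖b‖ := by linarith
  have h1 : ‖a - b‖ ^ 2 = ‖a‖ ^ 2 - 2 * inner ℝ a b + ‖b‖ ^ 2 := norm_sub_sq_real a b
  have h2 : (‖a‖ + ‖b‖ - 2 * ρ) ^ 2 ≤ ‖a - b‖ ^ 2 :=
    pow_le_pow_left₀ (by linarith) hab 2
  have h3 : inner ℝ a b ≤ ‖a‖ * ‖b‖ / 2 := by
    nlinarith [mul_nonneg (sub_nonneg.2 ha) (sub_nonneg.2 hb),
      mul_nonneg hρ.le (sub_nonneg.2 ha), mul_nonneg hρ.le (sub_nonneg.2 hb)]
  rw [real_inner_smul_left, real_inner_smul_right]
  have h4 : ‖a‖⁻¹ * (‖b‖⁻¹ * inner ℝ a b) = inner ℝ a b / (‖a‖ * ‖b‖) := by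
    field_simp
  rw [h4, div_le_iff₀ (by positivity)]
  linarith

/-- Neighbours of the ball `i` of at least the same radius. -/
noncomputable def nb {n d : ℕ} (c : Fin n → EuclideanSpace ℝ (Fin d)) (r : Fin n → ℝ)
    (i : Fin n) : Finset (Fin n) :=
  univ.filter fun j => i ≠ j ∧ r i ≤ r j ∧ dist (c i) (c j) = r i + r j

theorem nb_card_le {n d : ℕ} {c : Fin n → EuclideanSpace ℝ (Fin d)} {r : Fin n → ℝ}
    (h : IsPacking c r) {A : ℝ}
    (hA : ∀ S : Finset (EuclideanSpace ℝ (Fin d)), SphCode d (1 / 2) S → (S.card : ℝ) ≤ A)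
    (i : Fin n) : ((nb c r i).card : ℝ) ≤ A := by
  classical
  set u : Fin n → EuclideanSpace ℝ (Fin d) := fun j => (‖c j - c i‖)⁻¹ • (c j - c i) with hu
  have hn : ∀ j ∈ nb c r i, ‖c j - c i‖ = r i + r j ∧ r i ≤ r j := by
    intro j hj
    obtain ⟨_, h1, h2⟩ := (Finset.mem_filter.mp hj).2
    refine ⟨?_, h1⟩
    rw [← dist_eq_norm, dist_comm]
    exact h2
  have hpos := h.1 i
  have hinner : ∀ j ∈ nb c r i, ∀ k ∈ nb c r i, j ≠ k → inner ℝ (u j) (u k) ≤ 1 / 2 := by
    intro j hj k hk hjk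
    obtain ⟨hj1, hj2⟩ := hn j hj
    obtain ⟨hk1, hk2⟩ := hn k hk
    apply inner_le_half hpos
    · rw [hj1]; linarith
    · rw [hk1]; linarith
    · rw [hj1, hk1]
      have h1 : c j - c i - (c k - c i) = c j - c k := by abel
      rw [h1, ← dist_eq_norm]
      have h2 := h.2 j k hjk
      linarith
  have hnorm : ∀ j ∈ nb c r i, ‖u j‖ = 1 := by
    intro j hj
    obtain ⟨hj1, hj2⟩ := hn j hj
    have h1 : ‖c j - c i‖ ≠ 0 := by
      rw [hj1]
      linarith
    rw [hu]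
    simp only
    rw [norm_smul, norm_inv, norm_norm, inv_mul_cancel₀ h1]
  have hinj : Set.InjOn u (nb c r i) := by
    intro j hj k hk hjk
    by_contra hne
    have h1 := hinner j hj k hk hne
    rw [hjk, real_inner_self_eq_norm_sq, hnorm k hk] at h1
    norm_num at h1
  have hcode : SphCode d (1 / 2) ((nb c r i).image u) := by
    refine ⟨?_, ?_⟩
    · intro x hx
      obtain ⟨j, hj, rfl⟩ := Finset.mem_image.mp hx
      exact hnorm j hj
    · intro x hx y hy hxy
      obtain ⟨j, hj, rfl⟩ := Finset.mem_image.mp hx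
      obtain ⟨k, hk, rfl⟩ := Finset.mem_image.mp hy
      exact hinner j hj k hk (fun e => hxy (by rw [e]))
  have := hA _ hcode
  rwa [Finset.card_image_of_injOn hinj] at this

theorem edges_le_sum {n d : ℕ} (c : Fin n → EuclideanSpace ℝ (Fin d)) (r : Fin n → ℝ) :
    edges c r ≤ ∑ i, (nb c r i).card := by
  classical
  have h1 : ∑ i, (nb c r i).card
      = (univ.filter fun p : Fin n × Fin n =>
          p.1 ≠ p.2 ∧ r p.1 ≤ r p.2 ∧ dist (c p.1) (c p.2) = r p.1 + r p.2).card := by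
    rw [Finset.card_filter, Fintype.sum_prod_type]
    refine Finset.sum_congr rfl fun i _ => ?_
    rw [nb, Finset.card_filter]
  rw [h1]
  unfold edges
  refine Finset.card_le_card_of_injOn
    (fun p => if r p.1 ≤ r p.2 then p else (p.2, p.1)) ?_ ?_
  · intro p hp
    have hp' := (Finset.mem_filter.mp hp).2
    simp only [Finset.coe_filter, Finset.mem_univ, true_and, Set.mem_setOf_eq]
    split_ifs with h
    · exact ⟨ne_of_lt hp'.1, h, hp'.2⟩
    · refine ⟨(ne_of_lt hp'.1).symm, (not_le.mp h).le, ?_⟩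
      rw [dist_comm, hp'.2]
      ring
  · intro p hp q hq hpq
    have hp' := (Finset.mem_filter.mp hp).2
    have hq' := (Finset.mem_filter.mp hq).2
    simp only at hpq
    split_ifs at hpq with h1 h2 h2
    · exact hpq
    · exfalso
      rw [Prod.ext_iff] at hpq
      simp only at hpq
      have a := hp'.1
      have b := hq'.1
      rw [hpq.1, hpq.2] at a
      exact absurd a (not_lt.mpr b.le)
    · exfalso
      rw [Prod.ext_iff] at hpq
      simp only at hpq
      have a := hp'.1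
      have b := hq'.1
      rw [hpq.1, hpq.2] at a
      exact absurd a (not_lt.mpr b.le)
    · rw [Prod.ext_iff] at hpq
      simp only at hpq
      exact Prod.ext hpq.2 hpq.1

theorem edges_le {n d : ℕ} {c : Fin n → EuclideanSpace ℝ (Fin d)} {r : Fin n → ℝ}
    (h : IsPacking c r) {A : ℝ}
    (hA : ∀ S : Finset (EuclideanSpace ℝ (Fin d)), SphCode d (1 / 2) S → (S.card : ℝ) ≤ A) :
    (edges c r : ℝ) ≤ n * A := by
  have h1 : (edges c r : ℝ) ≤ ∑ i, ((nb c r i).card : ℝ) := by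
    exact_mod_cast edges_le_sum c r
  refine h1.trans ((Finset.sum_le_sum fun i _ => nb_card_le h hA i).trans ?_)
  simp

theorem E_bdd (n d : ℕ) : BddAbove {e : ℕ | ∃ (c : Fin n → EuclideanSpace ℝ (Fin d))
    (r : Fin n → ℝ), IsPacking c r ∧ e = edges c r} := by
  refine ⟨(univ : Finset (Fin n × Fin n)).card, ?_⟩
  rintro e ⟨c, r, _, rfl⟩
  exact Finset.card_le_card (Finset.filter_subset _ _)

theorem E_le {n d : ℕ} {A : ℝ}
    (hA : ∀ S : Finset (EuclideanSpace ℝ (Fin d)), SphCode d (1 / 2) S → (S.card : ℝ) ≤ A) :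
    (E n d : ℝ) ≤ n * A := by
  have hA0 : 0 ≤ A := by
    have := hA ∅ ⟨by simp, by simp⟩
    simpa using this
  unfold E
  rcases Set.eq_empty_or_nonempty {e : ℕ | ∃ (c : Fin n → EuclideanSpace ℝ (Fin d))
    (r : Fin n → ℝ), IsPacking c r ∧ e = edges c r} with he | he
  · rw [he]
    simp only [csSup_empty, Nat.bot_eq_zero, Nat.cast_zero]
    positivity
  · obtain ⟨c, r, h, e⟩ := Nat.sSup_mem he (E_bdd n d)
    rw [e]
    exact edges_le h hA

/-- `κ_d` is at most the maximal size of a set of unit vectors with pairwise angles at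
least `60` degrees. -/
theorem kappa_le {d : ℕ} {A : ℝ}
    (hA : ∀ S : Finset (EuclideanSpace ℝ (Fin d)), SphCode d (1 / 2) S → (S.card : ℝ) ≤ A) :
    kappa d ≤ A := by
  unfold kappa
  refine ciSup_le fun n => ?_
  rw [div_le_iff₀ (by positivity)]
  have := E_le (n := n + 1) hA
  push_cast at this
  linarith

end Pool.Agent.Lib.MP_b2bfca_co
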