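import Pool.Agent.Lib.MP_b2bfca_co.Bessel

/-!
# The level inequality for the kernel
-/

set_option autoImplicit false
set_option linter.unusedSectionVars false

namespace Pool.Agent.Lib.MP_b2bfca_co

open Finset MvPolynomial

variable {ι : Type*} [Fintype ι] [DecidableEq ι]

/-- The squared norm of `c_x^j Y` for a unit vector `Y`. -/
noncomputable def Nn (ι : Type*) [Fintype ι] (m t : ℕ) : ℝ := ∏ i ∈ range t, rho ι m (i + 1)

theorem Nn_pos (hn : 5 ≤ Fintype.card ι) (m t : ℕ) : 0 < Nn ι m t :=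
  Finset.prod_pos fun i _ => rho_pos hn m i

theorem Nn_succ (m t : ℕ) : Nn ι m (t + 1) = Nn ι m t * rho ι m (t + 1) :=
  Finset.prod_range_succ _ _

/-- Weight of the raising part. -/
noncomputable def alc (n m j : ℕ) : ℝ :=
  ((j : ℝ) + 1) * ((n : ℝ) + 2 * m + j - 2) / (((n : ℝ) + 2 * (m + j) - 2) * ((m : ℝ) + j + 1))

/-- Weight of the lowering part. -/
noncomputable def bec (n m j : ℕ) : ℝ :=
  (j : ℝ) * ((n : ℝ) + 2 * m + j - 3) / (((n : ℝ) + 2 * (m + j) - 2) * ((n : ℝ) + m + j - 3))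

theorem rho_div_up (hn : 5 ≤ Fintype.card ι) (m j : ℕ) :
    rho ι m (j + 1) / ((m : ℝ) + j + 1) = alc (Fintype.card ι) m j := by
  have hn' : (5 : ℝ) ≤ (Fintype.card ι : ℝ) := by exact_mod_cast hn
  have hm : (0 : ℝ) ≤ m := Nat.cast_nonneg m
  have hj : (0 : ℝ) ≤ j := Nat.cast_nonneg j
  unfold rho alc
  push_cast
  have h1 : (Fintype.card ι : ℝ) + 2 * m + 2 * (j + 1) - 4
      = (Fintype.card ι : ℝ) + 2 * (m + j) - 2 := by ring
  have h2 : (Fintype.card ι : ℝ) + 2 * m + (j + 1) - 3 = (Fintype.card ι : ℝ) + 2 * m + j - 2 := by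
    ring
  rw [h1, h2, div_div]

theorem rho_div_down (hn : 5 ≤ Fintype.card ι) (m j : ℕ) :
    rho ι m (j + 1) / nn ι (m + j) = bec (Fintype.card ι) m (j + 1) := by
  have hn' : (5 : ℝ) ≤ (Fintype.card ι : ℝ) := by exact_mod_cast hn
  have hm : (0 : ℝ) ≤ m := Nat.cast_nonneg m
  have hj : (0 : ℝ) ≤ j := Nat.cast_nonneg j
  have h1 : (Fintype.card ι : ℝ) + 2 * (m + j) - 2 ≠ 0 := by nlinarith
  have h3 : (Fintype.card ι : ℝ) + 2 * (m + (j + 1)) - 2 ≠ 0 := by nlinarith
  have h4 : (Fintype.card ι : ℝ) + m + (j + 1) - 3 ≠ 0 := by nlinarith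
  have e : nn ι (m + j) = ((Fintype.card ι : ℝ) + 2 * (m + (j + 1)) - 2)
      * ((Fintype.card ι : ℝ) + m + (j + 1) - 3) / ((Fintype.card ι : ℝ) + 2 * (m + j) - 2) := by
    unfold nn al
    push_cast
    rw [eq_div_iff h1, sub_mul, mul_one_div, div_mul_cancel₀ _ h1]
    ring
  rw [e]
  unfold rho bec
  push_cast
  have h5 : (Fintype.card ι : ℝ) + 2 * m + 2 * (j + 1) - 4
      = (Fintype.card ι : ℝ) + 2 * (m + j) - 2 := by ring
  rw [h5]
  field_simp

/-- The kernel. -/
noncomputable def GG (m T : ℕ) (w : ℕ → ℝ) (x x' : ι → ℝ) (Y Y' : MvPolynomial ι ℝ) : ℝ :=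
  ∑ t ∈ range T, w t / Nn ι m t * fi (pw m x Y t) (pw m x' Y' t)

theorem level (hn : 5 ≤ Fintype.card ι) {m : ℕ} (hm : 1 ≤ m) {κ : Type*} (S : Finset κ)
    (x : κ → ι → ℝ) (Y : κ → MvPolynomial ι ℝ) (hx : ∀ i ∈ S, ∑ a, x i a * x i a = 1)
    (hY : ∀ i ∈ S, Hm m (Y i)) (hd : ∀ i ∈ S, dx (x i) (Y i) = 0)
    {w : ℕ → ℝ} {T : ℕ} (hw : ∀ j, 0 ≤ w j) (hT : ∀ j, T ≤ j → w j = 0) {l : ℝ}
    (h0 : l * w 0 ≤ bec (Fintype.card ι) m 1 * w 1)
    (hL : ∀ j, l * w (j + 1) ≤ alc (Fintype.card ι) m j * w j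
      + bec (Fintype.card ι) m (j + 2) * w (j + 2)) (u : κ → ℝ) :
    l * ∑ i ∈ S, ∑ j ∈ S, u i * u j * GG m T w (x i) (x j) (Y i) (Y j)
      ≤ ∑ i ∈ S, ∑ j ∈ S, u i * u j *
        ((∑ a, x i a * x j a) * GG m T w (x i) (x j) (Y i) (Y j)) := by
  classical
  set Φ : ℕ → MvPolynomial ι ℝ := fun t => ∑ i ∈ S, C (u i) * pw m (x i) (Y i) t with hΦ
  set E : ℕ → ℝ := fun t => fi (Φ t) (Φ t) / Nn ι m t with hE
  have hE0 : ∀ t, 0 ≤ E t := fun t => div_nonneg (fi_self_nonneg _) (Nn_pos hn m t).le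
  have e1 : ∑ i ∈ S, ∑ j ∈ S, u i * u j * GG m T w (x i) (x j) (Y i) (Y j)
      = ∑ t ∈ range T, w t * E t := by
    have h1 : ∀ t, fi (Φ t) (Φ t) = ∑ i ∈ S, ∑ j ∈ S, u i * u j
        * fi (pw m (x i) (Y i) t) (pw m (x j) (Y j) t) := by
      intro t
      simp only [hΦ]
      rw [fi_sum_left]
      apply Finset.sum_congr rfl
      intro i _
      rw [fi_sum_right]
      apply Finset.sum_congr rfl
      intro j _
      rw [fi_C_mul_left, fi_C_mul_right]
      ring
    simp only [hE, h1, GG, Finset.mul_sum]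
    symm
    have h2 : ∀ t, w t * ((∑ i ∈ S, ∑ j ∈ S, u i * u j
        * fi (pw m (x i) (Y i) t) (pw m (x j) (Y j) t)) / Nn ι m t)
        = ∑ i ∈ S, ∑ j ∈ S, u i * u j * (w t / Nn ι m t
          * fi (pw m (x i) (Y i) t) (pw m (x j) (Y j) t)) := by
      intro t
      rw [mul_div_assoc', mul_comm, mul_div_assoc, Finset.sum_mul]
      apply Finset.sum_congr rfl
      intro i _
      rw [Finset.sum_mul]
      apply Finset.sum_congr rfl
      intro j _
      ring
    simp only [h2]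
    rw [Finset.sum_comm]
    apply Finset.sum_congr rfl
    intro i _
    rw [Finset.sum_comm]
  have e2 : ∑ i ∈ S, ∑ j ∈ S, u i * u j *
        ((∑ a, x i a * x j a) * GG m T w (x i) (x j) (Y i) (Y j))
      = ∑ t ∈ range T, w t / Nn ι m t * ∑ i ∈ S, ∑ j ∈ S, (∑ a, x i a * x j a)
          * fi (C (u i) * pw m (x i) (Y i) t) (C (u j) * pw m (x j) (Y j) t) := by
    simp only [GG, Finset.mul_sum]
    symm
    rw [Finset.sum_comm]
    apply Finset.sum_congr rfl
    intro i _
    rw [Finset.sum_comm]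
    apply Finset.sum_congr rfl
    intro j _
    apply Finset.sum_congr rfl
    intro t _
    rw [fi_C_mul_left, fi_C_mul_right, Finset.sum_mul, Finset.mul_sum, Finset.sum_mul,
      Finset.mul_sum]
    apply Finset.sum_congr rfl
    intro a _
    ring
  obtain ⟨m', rfl⟩ : ∃ m', m = m' + 1 := ⟨m - 1, by omega⟩
  -- the Bessel inequality at each level
  have e3 : ∀ t, alc (Fintype.card ι) (m' + 1) t * E (t + 1)
      + (if t = 0 then 0 else bec (Fintype.card ι) (m' + 1) t * E (t - 1))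
      ≤ (1 / Nn ι (m' + 1) t) * ∑ i ∈ S, ∑ j ∈ S, (∑ a, x i a * x j a)
          * fi (C (u i) * pw (m' + 1) (x i) (Y i) t) (C (u j) * pw (m' + 1) (x j) (Y j) t) := by
    intro t
    have hN := Nn_pos hn (m' + 1) t
    have hb := bessel (by omega : 3 ≤ Fintype.card ι) S (k := m' + t) x
      (fun i => C (u i) * pw (m' + 1) (x i) (Y i) t) (fun i hi => by
        have := (pw_Hm (by omega : 3 ≤ Fintype.card ι) (x := x i) (hY i hi) t).C_mul (u i)
        have e : m' + 1 + t = m' + t + 1 := by omega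
        rwa [e] at this)
    have f1 : ∑ i ∈ S, cx (m' + t + 1) (x i) (C (u i) * pw (m' + 1) (x i) (Y i) t)
        = Φ (t + 1) := by
      simp only [hΦ]
      apply Finset.sum_congr rfl
      intro i _
      rw [cx_C_mul]
      have e : m' + t + 1 = m' + 1 + t := by omega
      rw [e]
      rfl
    rw [f1] at hb
    have f2 : (1 / Nn ι (m' + 1) t) * (fi (Φ (t + 1)) (Φ (t + 1)) / (((m' + t : ℕ) : ℝ) + 2))
        = alc (Fintype.card ι) (m' + 1) t * E (t + 1) := by
      rw [← rho_div_up hn]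
      simp only [hE]
      rw [Nn_succ]
      have h1 := (Nn_pos hn (m' + 1) t).ne'
      have h2 := (rho_pos hn (m' + 1) t).ne'
      have h3 : ((m' + 1 : ℕ) : ℝ) + t + 1 ≠ 0 := by positivity
      have h4 : ((m' + t : ℕ) : ℝ) + 2 ≠ 0 := by positivity
      push_cast at h3 h4 ⊢
      field_simp
      ring
    rw [← f2]
    refine le_trans ?_ (mul_le_mul_of_nonneg_left hb (by positivity))
    rw [mul_add]
    apply add_le_add le_rfl
    split_ifs with ht
    · have := nn_pos (by omega : 3 ≤ Fintype.card ι) (m' + t)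
      have := fi_self_nonneg (∑ i ∈ S, dx (x i) (C (u i) * pw (m' + 1) (x i) (Y i) t))
      positivity
    · obtain ⟨t', rfl⟩ : ∃ t', t = t' + 1 := ⟨t - 1, by omega⟩
      have f3 : ∑ i ∈ S, dx (x i) (C (u i) * pw (m' + 1) (x i) (Y i) (t' + 1))
          = C (rho ι (m' + 1) (t' + 1)) * Φ t' := by
        simp only [hΦ, Finset.mul_sum]
        apply Finset.sum_congr rfl
        intro i hi
        rw [dx_C_mul, dx_pw hn (hx i hi) (hd i hi)]
        ring
      rw [f3, fi_C_mul_left, fi_C_mul_right, Nat.add_sub_cancel, ← rho_div_down hn]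
      simp only [hE]
      rw [Nn_succ]
      have h1 := (Nn_pos hn (m' + 1) t').ne'
      have h2 := (rho_pos hn (m' + 1) t').ne'
      have h5 : m' + (t' + 1) = m' + 1 + t' := by omega
      rw [h5]
      have h3 := (nn_pos (by omega : 3 ≤ Fintype.card ι) (m' + 1 + t')).ne'
      apply le_of_eq
      field_simp
  rw [e1, e2]
  have e4 : ∑ t ∈ range T, w t * (alc (Fintype.card ι) (m' + 1) t * E (t + 1)
      + (if t = 0 then 0 else bec (Fintype.card ι) (m' + 1) t * E (t - 1)))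
      ≤ ∑ t ∈ range T, w t / Nn ι (m' + 1) t * ∑ i ∈ S, ∑ j ∈ S, (∑ a, x i a * x j a)
          * fi (C (u i) * pw (m' + 1) (x i) (Y i) t) (C (u j) * pw (m' + 1) (x j) (Y j) t) := by
    apply Finset.sum_le_sum
    intro t _
    have := mul_le_mul_of_nonneg_left (e3 t) (hw t)
    rw [← mul_assoc, mul_one_div] at this
    exact this
  refine le_trans ?_ e4
  have halc : ∀ t, 0 ≤ alc (Fintype.card ι) (m' + 1) t := by
    intro t
    rw [← rho_div_up hn]
    have := rho_pos hn (m' + 1) t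
    positivity
  have hbec : ∀ t, 0 ≤ bec (Fintype.card ι) (m' + 1) (t + 1) := by
    intro t
    rw [← rho_div_down hn]
    have := rho_pos hn (m' + 1) t
    have := nn_pos (by omega : 3 ≤ Fintype.card ι) (m' + 1 + t)
    positivity
  rcases Nat.eq_zero_or_pos T with hT0 | hT0
  · subst hT0
    simp
  obtain ⟨T', rfl⟩ : ∃ T', T = T' + 1 := ⟨T - 1, by omega⟩
  -- left side
  have g1 : l * ∑ t ∈ range (T' + 1), w t * E t
      ≤ ∑ t ∈ range T', alc (Fintype.card ι) (m' + 1) t * w t * E (t + 1)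
        + ∑ t ∈ range (T' + 1), bec (Fintype.card ι) (m' + 1) (t + 1) * w (t + 1) * E t := by
    rw [Finset.sum_range_succ', Finset.sum_range_succ' (fun t =>
      bec (Fintype.card ι) (m' + 1) (t + 1) * w (t + 1) * E t), mul_add, Finset.mul_sum,
      ← add_assoc, ← Finset.sum_add_distrib]
    apply add_le_add
    · apply Finset.sum_le_sum
      intro t _
      have := mul_le_mul_of_nonneg_right (hL t) (hE0 (t + 1))
      calc l * (w (t + 1) * E (t + 1)) = l * w (t + 1) * E (t + 1) := by ring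
        _ ≤ _ := this
        _ = _ := by ring
    · have := mul_le_mul_of_nonneg_right h0 (hE0 0)
      calc l * (w 0 * E 0) = l * w 0 * E 0 := by ring
        _ ≤ _ := this
        _ = _ := by simp
  refine g1.trans ?_
  simp only [mul_add, Finset.sum_add_distrib]
  apply add_le_add
  · rw [Finset.sum_range_succ]
    have h1 : 0 ≤ w T' * (alc (Fintype.card ι) (m' + 1) T' * E (T' + 1)) :=
      mul_nonneg (hw _) (mul_nonneg (halc _) (hE0 _))
    have h2 : ∑ t ∈ range T', alc (Fintype.card ι) (m' + 1) t * w t * E (t + 1)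
        = ∑ t ∈ range T', w t * (alc (Fintype.card ι) (m' + 1) t * E (t + 1)) := by
      apply Finset.sum_congr rfl
      intro t _
      ring
    rw [h2]
    linarith
  · rw [Finset.sum_range_succ, Finset.sum_range_succ' (fun t =>
      w t * (if t = 0 then 0 else bec (Fintype.card ι) (m' + 1) t * E (t - 1)))]
    rw [hT (T' + 1) le_rfl]
    simp only [if_true, mul_zero, zero_mul, add_zero]
    apply le_of_eq
    apply Finset.sum_congr rfl
    intro t _
    rw [if_neg (by omega), Nat.add_sub_cancel]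
    ring

end Pool.Agent.Lib.MP_b2bfca_co
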