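import Pool.Agent.Lib.MP_b2bfca_co.Defs
import Pool.Agent.Lib.MP_b2bfca_co.Kappa

/-!
# `E(n,d)/n` converges to `κ_d`
-/

set_option autoImplicit false

namespace Pool.Agent.Lib.MP_b2bfca_co

open Finset Filter Topology

/-- Spherical codes of angle `60` degrees have bounded size. -/
theorem exists_code_bound (d : ℕ) : ∃ A : ℝ, ∀ S : Finset (EuclideanSpace ℝ (Fin d)),
    SphCode d (1 / 2) S → (S.card : ℝ) ≤ A := by
  classical
  have hc : IsCompact (Metric.sphere (0 : EuclideanSpace ℝ (Fin d)) 1) := isCompact_sphere _ _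
  obtain ⟨F, hF, hcov⟩ := Metric.totallyBounded_iff.mp hc.totallyBounded (1 / 2) (by norm_num)
  refine ⟨hF.toFinset.card, fun S hS => ?_⟩
  have hex : ∀ x ∈ S, ∃ y ∈ F, dist x y < 1 / 2 := by
    intro x hx
    have h1 : x ∈ Metric.sphere (0 : EuclideanSpace ℝ (Fin d)) 1 := by
      rw [mem_sphere_zero_iff_norm]
      exact hS.1 x hx
    have h2 := hcov h1
    simp only [Set.mem_iUnion, Metric.mem_ball, exists_prop] at h2
    exact h2
  choose! f hf using hex
  have hmaps : ∀ x ∈ S, f x ∈ hF.toFinset := fun x hx => hF.mem_toFinset.mpr (hf x hx).1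
  have hinj : Set.InjOn f S := by
    intro x hx y hy hxy
    by_contra hne
    have h1 : dist x y < 1 := by
      have a := (hf x hx).2
      have b := (hf y hy).2
      rw [← hxy] at b
      have := dist_triangle_right x y (f x)
      linarith
    have h2 := hS.2 x hx y hy hne
    have h3 : ‖x - y‖ ^ 2 = ‖x‖ ^ 2 - 2 * inner ℝ x y + ‖y‖ ^ 2 := norm_sub_sq_real x y
    rw [hS.1 x hx, hS.1 y hy] at h3
    rw [dist_eq_norm] at h1
    have h4 : ‖x - y‖ ^ 2 < 1 := by
      have := norm_nonneg (x - y)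
      nlinarith
    linarith
  exact_mod_cast Finset.card_le_card_of_injOn f hmaps hinj

theorem exists_unit {d : ℕ} (hd : 1 ≤ d) : ∃ e : EuclideanSpace ℝ (Fin d), ‖e‖ = 1 := by
  refine ⟨EuclideanSpace.single ⟨0, hd⟩ 1, ?_⟩
  simp

theorem exists_packing {d : ℕ} (hd : 1 ≤ d) (n : ℕ) :
    ∃ (c : Fin n → EuclideanSpace ℝ (Fin d)) (r : Fin n → ℝ), IsPacking c r := by
  obtain ⟨e, he⟩ := exists_unit hd
  refine ⟨fun i => ((2 * (i : ℕ) : ℕ) : ℝ) • e, fun _ => 1, fun _ => one_pos, ?_⟩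
  intro i j hij
  rw [dist_eq_norm, ← sub_smul, norm_smul, he, mul_one, Real.norm_eq_abs]
  have h1 : (i : ℕ) ≠ (j : ℕ) := fun h => hij (Fin.ext h)
  have h2 : (2 : ℤ) ≤ |((2 * (i : ℕ) : ℕ) : ℤ) - ((2 * (j : ℕ) : ℕ) : ℤ)| := by
    rw [le_abs]
    push_cast
    omega
  have h3 : ((2 : ℤ) : ℝ) ≤ ((|((2 * (i : ℕ) : ℕ) : ℤ) - ((2 * (j : ℕ) : ℕ) : ℤ)| : ℤ) : ℝ) := by
    exact_mod_cast h2
  push_cast at h3 ⊢
  linarith

theorem edges_append {m n d : ℕ} (c₁ : Fin m → EuclideanSpace ℝ (Fin d)) (r₁ : Fin m → ℝ)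
    (c₂ : Fin n → EuclideanSpace ℝ (Fin d)) (r₂ : Fin n → ℝ) (v : EuclideanSpace ℝ (Fin d)) :
    edges c₁ r₁ + edges c₂ r₂ ≤ edges (Fin.append c₁ (fun j => c₂ j + v)) (Fin.append r₁ r₂) := by
  classical
  unfold edges
  set A := univ.filter fun p : Fin m × Fin m =>
    p.1 < p.2 ∧ dist (c₁ p.1) (c₁ p.2) = r₁ p.1 + r₁ p.2 with hA
  set B := univ.filter fun p : Fin n × Fin n =>
    p.1 < p.2 ∧ dist (c₂ p.1) (c₂ p.2) = r₂ p.1 + r₂ p.2 with hB
  set f : Fin m × Fin m → Fin (m + n) × Fin (m + n) :=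
    fun p => (Fin.castAdd n p.1, Fin.castAdd n p.2) with hf
  set g : Fin n × Fin n → Fin (m + n) × Fin (m + n) :=
    fun p => (Fin.natAdd m p.1, Fin.natAdd m p.2) with hg
  have hfi : Function.Injective f := by
    intro p q h
    simp only [hf, Prod.mk.injEq] at h
    exact Prod.ext (Fin.castAdd_injective _ _ h.1) (Fin.castAdd_injective _ _ h.2)
  have hgi : Function.Injective g := by
    intro p q h
    simp only [hg, Prod.mk.injEq] at h
    exact Prod.ext (Fin.natAdd_injective _ _ h.1) (Fin.natAdd_injective _ _ h.2)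
  have hdisj : Disjoint (A.image f) (B.image g) := by
    rw [Finset.disjoint_left]
    intro x hx hy
    obtain ⟨p, _, rfl⟩ := Finset.mem_image.mp hx
    obtain ⟨q, _, h⟩ := Finset.mem_image.mp hy
    simp only [hf, hg, Prod.mk.injEq] at h
    have h1 := congrArg Fin.val h.1
    simp only [Fin.val_natAdd, Fin.val_castAdd] at h1
    have := p.1.isLt
    omega
  rw [← Finset.card_image_of_injective A hfi, ← Finset.card_image_of_injective B hgi,
    ← Finset.card_union_of_disjoint hdisj]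
  refine Finset.card_le_card fun x hx => ?_
  rw [Finset.mem_filter]
  refine ⟨Finset.mem_univ _, ?_⟩
  rcases Finset.mem_union.mp hx with hx | hx
  · obtain ⟨p, hp, rfl⟩ := Finset.mem_image.mp hx
    have hp' := (Finset.mem_filter.mp hp).2
    simp only [hf, Fin.append_left]
    refine ⟨?_, hp'.2⟩
    rw [Fin.lt_def, Fin.val_castAdd, Fin.val_castAdd]
    exact hp'.1
  · obtain ⟨p, hp, rfl⟩ := Finset.mem_image.mp hx
    have hp' := (Finset.mem_filter.mp hp).2
    simp only [hg, Fin.append_right]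
    refine ⟨?_, ?_⟩
    · rw [Fin.lt_def, Fin.val_natAdd, Fin.val_natAdd]
      have := hp'.1
      rw [Fin.lt_def] at this
      omega
    · rw [dist_add_right]
      exact hp'.2

theorem packing_append {m n d : ℕ} (hd : 1 ≤ d) {c₁ : Fin m → EuclideanSpace ℝ (Fin d)}
    {r₁ : Fin m → ℝ} {c₂ : Fin n → EuclideanSpace ℝ (Fin d)} {r₂ : Fin n → ℝ}
    (h₁ : IsPacking c₁ r₁) (h₂ : IsPacking c₂ r₂) :
    ∃ v, IsPacking (Fin.append c₁ (fun j => c₂ j + v)) (Fin.append r₁ r₂) := by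
  classical
  obtain ⟨e, he⟩ := exists_unit hd
  set R : ℝ := (∑ i, (‖c₁ i‖ + r₁ i)) + ∑ j, (‖c₂ j‖ + r₂ j) with hR
  have hp1 : ∀ i, 0 ≤ ‖c₁ i‖ + r₁ i := fun i => add_nonneg (norm_nonneg _) (h₁.1 i).le
  have hp2 : ∀ i, 0 ≤ ‖c₂ i‖ + r₂ i := fun i => add_nonneg (norm_nonneg _) (h₂.1 i).le
  have hR0 : 0 ≤ R := add_nonneg (Finset.sum_nonneg fun i _ => hp1 i)
    (Finset.sum_nonneg fun i _ => hp2 i)
  have hcross : ∀ i j, r₁ i + r₂ j ≤ dist (c₁ i) (c₂ j + R • e) := by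
    intro i j
    have a1 : ‖c₁ i‖ + r₁ i ≤ ∑ i, (‖c₁ i‖ + r₁ i) :=
      Finset.single_le_sum (f := fun i => ‖c₁ i‖ + r₁ i) (fun i _ => hp1 i) (Finset.mem_univ i)
    have a2 : ‖c₂ j‖ + r₂ j ≤ ∑ i, (‖c₂ i‖ + r₂ i) :=
      Finset.single_le_sum (f := fun i => ‖c₂ i‖ + r₂ i) (fun i _ => hp2 i) (Finset.mem_univ j)
    have a3 : ‖R • e‖ = R := by
      rw [norm_smul, he, mul_one, Real.norm_eq_abs, abs_of_nonneg hR0]
    have a4 : ‖R • e‖ ≤ ‖c₂ j + R • e - c₁ i‖ + ‖c₁ i - c₂ j‖ := by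
      have : R • e = (c₂ j + R • e - c₁ i) + (c₁ i - c₂ j) := by abel
      calc ‖R • e‖ = ‖(c₂ j + R • e - c₁ i) + (c₁ i - c₂ j)‖ := by rw [← this]
        _ ≤ _ := norm_add_le _ _
    have a5 : ‖c₁ i - c₂ j‖ ≤ ‖c₁ i‖ + ‖c₂ j‖ := norm_sub_le _ _
    rw [dist_comm, dist_eq_norm]
    rw [a3] at a4
    linarith
  refine ⟨R • e, ?_, ?_⟩
  · intro i
    refine Fin.addCases (fun i => ?_) (fun i => ?_) i
    · rw [Fin.append_left]; exact h₁.1 i
    · rw [Fin.append_right]; exact h₂.1 i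
  · intro i j
    refine Fin.addCases (fun i => ?_) (fun i => ?_) i
    · refine Fin.addCases (fun j => ?_) (fun j => ?_) j
      · intro hij
        simp only [Fin.append_left]
        exact h₁.2 i j (fun h => hij (by rw [h]))
      · intro _
        simp only [Fin.append_left, Fin.append_right]
        exact hcross i j
    · refine Fin.addCases (fun j => ?_) (fun j => ?_) j
      · intro _
        simp only [Fin.append_left, Fin.append_right]
        rw [dist_comm, add_comm]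
        exact hcross j i
      · intro hij
        simp only [Fin.append_right]
        rw [dist_add_right]
        exact h₂.2 i j (fun h => hij (by rw [h]))

theorem E_mem {n d : ℕ} (hd : 1 ≤ d) : ∃ (c : Fin n → EuclideanSpace ℝ (Fin d))
    (r : Fin n → ℝ), IsPacking c r ∧ E n d = edges c r := by
  obtain ⟨c, r, h⟩ := exists_packing hd n
  exact Nat.sSup_mem (s := {e : ℕ | ∃ (c : Fin n → EuclideanSpace ℝ (Fin d))
    (r : Fin n → ℝ), IsPacking c r ∧ e = edges c r}) ⟨_, c, r, h, rfl⟩ (E_bdd n d)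

theorem E_superadd {d : ℕ} (hd : 1 ≤ d) (m n : ℕ) : E m d + E n d ≤ E (m + n) d := by
  obtain ⟨c₁, r₁, h₁, e₁⟩ := E_mem (n := m) hd
  obtain ⟨c₂, r₂, h₂, e₂⟩ := E_mem (n := n) hd
  obtain ⟨v, hv⟩ := packing_append hd h₁ h₂
  rw [e₁, e₂]
  refine (edges_append c₁ r₁ c₂ r₂ v).trans ?_
  exact le_csSup (E_bdd _ _) ⟨_, _, hv, rfl⟩

theorem kappa_bdd (d : ℕ) : BddAbove (Set.range fun n : ℕ => (E (n + 1) d : ℝ) / ((n : ℝ) + 1)) := by
  obtain ⟨A, hA⟩ := exists_code_bound d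
  refine ⟨A, ?_⟩
  rintro x ⟨n, rfl⟩
  simp only
  rw [div_le_iff₀ (by positivity)]
  have := E_le (n := n + 1) hA
  push_cast at this
  linarith

/-- The limit of `E(n,d)/n` exists and equals `κ_d = sup_{n ≥ 1} E(n,d)/n`. -/
theorem tendsto_kappa {d : ℕ} (hd : 1 ≤ d) :
    Tendsto (fun n : ℕ => (E n d : ℝ) / (n : ℝ)) atTop (𝓝 (kappa d)) := by
  have hsub : Subadditive (fun n : ℕ => -(E n d : ℝ)) := by
    intro m n
    have h : ((E m d + E n d : ℕ) : ℝ) ≤ ((E (m + n) d : ℕ) : ℝ) := by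
      exact_mod_cast E_superadd hd m n
    push_cast at h
    simp only
    linarith
  have hb := kappa_bdd d
  have hbdd : BddBelow (Set.range fun n : ℕ => -(E n d : ℝ) / (n : ℝ)) := by
    obtain ⟨A, hA⟩ := exists_code_bound d
    have hA0 : 0 ≤ A := by
      have := hA ∅ ⟨by simp, by simp⟩
      simpa using this
    refine ⟨-A, ?_⟩
    rintro x ⟨n, rfl⟩
    simp only
    rcases Nat.eq_zero_or_pos n with hn | hn
    · subst hn
      simp [hA0]
    · have hn' : (0 : ℝ) < n := by exact_mod_cast hn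
      rw [le_div_iff₀ hn']
      have := E_le (n := n) hA
      linarith
  have hlim := hsub.tendsto_lim hbdd
  have heq : hsub.lim = -kappa d := by
    apply le_antisymm
    · -- lim ≤ -kappa : kappa ≤ -lim
      rw [le_neg]
      unfold kappa
      refine ciSup_le fun n => ?_
      have h1 := hsub.lim_le_div hbdd (n := n + 1) (by omega)
      have h2 : (E (n + 1) d : ℝ) / ((n : ℝ) + 1) = -(-(E (n + 1) d : ℝ) / ((n + 1 : ℕ) : ℝ)) := by
        push_cast
        ring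
      rw [h2]
      linarith
    · -- -kappa ≤ lim
      refine ge_of_tendsto hlim ?_
      filter_upwards [eventually_ge_atTop 1] with n hn
      obtain ⟨k, rfl⟩ : ∃ k, n = k + 1 := ⟨n - 1, by omega⟩
      have h1 := le_ciSup hb k
      have h2 : -(E (k + 1) d : ℝ) / ((k + 1 : ℕ) : ℝ) = -((E (k + 1) d : ℝ) / ((k : ℝ) + 1)) := by
        push_cast
        ring
      rw [h2]
      unfold kappa
      linarith
  have h3 := hlim.neg
  rw [heq, neg_neg] at h3
  refine h3.congr fun n => ?_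
  ring

end Pool.Agent.Lib.MP_b2bfca_co
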