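import Pool.Agent.Lib.MP_b2bfca_co.Limit
import Pool.Agent.Lib.MP_b2bfca_co.Finite
import Pool.Agent.Lib.MP_b2bfca_co.Asym

/-!
# Upper bounds for the exponent of `κ_d`
-/

set_option autoImplicit false

namespace Pool.Agent.Lib.MP_b2bfca_co

open Finset Filter Topology

theorem finiteIneq_of_code {n : ℕ} (hn : 5 ≤ n) {s : ℝ} (hs1 : s ≤ 1)
    {S : Finset (EuclideanSpace ℝ (Fin n))} (hS : SphCode n s S) :
    FiniteIneq n s (S.card : ℝ) := by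
  intro m j0 J w l hm hw hhi hlo hpos h0 hL hsl
  exact finite_bound hn hm hw hlo hhi hpos h0 hL hsl.le hs1 hS

/-- Spherical codes. -/
theorem code_asym {κ μ s : ℝ} (hμ : 0 ≤ μ) (h : μ < κ) (hμ1 : μ < 1) (hs0 : 0 ≤ s) (hs1 : s ≤ 1)
    (hs : s < lvS κ μ) {ε : ℝ} (hε : 0 < ε) :
    ∀ᶠ n : ℕ in atTop, ∀ S : Finset (EuclideanSpace ℝ (Fin n)), SphCode n s S →
      (S.card : ℝ) ≤ Real.exp (n * (gS κ - gS μ + ε)) := by
  filter_upwards [asym_main hμ h hμ1 hs0 hs hε, eventually_ge_atTop 5] with n hn h5 S hS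
  exact hn _ (finiteIneq_of_code h5 hs1 hS)

/-- The average number of tangencies. -/
theorem kappa_asym {κ μ : ℝ} (hμ : 0 ≤ μ) (h : μ < κ) (hμ1 : μ < 1)
    (hs : 1 / 2 < lvS κ μ) {ε : ℝ} (hε : 0 < ε) :
    ∀ᶠ d : ℕ in atTop, kappa d ≤ Real.exp (d * (gS κ - gS μ + ε)) := by
  filter_upwards [code_asym hμ h hμ1 (by norm_num) (by norm_num) hs hε] with d hd
  exact kappa_le hd

end Pool.Agent.Lib.MP_b2bfca_co
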