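import Pool.Agent.Lib.MP_b2bfca_co.Asym

/-!
# Numerical values of the exponents
-/

set_option autoImplicit false

namespace Pool.Agent.Lib.MP_b2bfca_co

theorem log_le_num {a T : ℝ} (n : ℕ) (ha : 0 < a) (hT : 0 ≤ T)
    (h : a ≤ ∑ i ∈ Finset.range n, T ^ i / (i.factorial : ℝ)) : Real.log a ≤ T := by
  rw [Real.log_le_iff_le_exp ha]
  exact h.trans (Real.sum_le_exp_of_nonneg hT n)

theorem le_log_num {a x : ℝ} (k : ℕ) (hx : 0 ≤ x) (h : (1 + x) ^ k ≤ a) :
    k * (2 * x / (x + 2)) ≤ Real.log a := by
  have h1 : Real.log ((1 + x) ^ k) ≤ Real.log a := Real.log_le_log (by positivity) h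
  rw [Real.log_pow] at h1
  have h2 := Real.le_log_one_add_of_nonneg hx
  have h3 : (k : ℝ) * (2 * x / (x + 2)) ≤ k * Real.log (1 + x) :=
    mul_le_mul_of_nonneg_left h2 (Nat.cast_nonneg k)
  linarith

theorem half_lt_lvS : (1 : ℝ) / 2 < lvS (857 / 10000) (37 / 10000) := by
  have h1 : Real.sqrt ((857 : ℝ) / 10000 * (1 + 857 / 10000)) < 305035 / 1000000 := by
    rw [Real.sqrt_lt' (by norm_num)]
    norm_num
  have h0 : 0 < Real.sqrt ((857 : ℝ) / 10000 * (1 + 857 / 10000)) :=
    Real.sqrt_pos.mpr (by norm_num)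
  rw [lvS, lt_div_iff₀ (by positivity)]
  nlinarith

theorem gS_diff_lt : gS (857 / 10000) - gS (37 / 10000) < 39735 / 100000 * Real.log 2 := by
  have h2a := Real.log_two_gt_d9
  have h2b := Real.log_two_lt_d9
  have e1 : Real.log ((857 : ℝ) / 10000) = Real.log (13712 / 10000) - 4 * Real.log 2 := by
    have : (857 : ℝ) / 10000 = 13712 / 10000 / 2 ^ 4 := by norm_num
    rw [this, Real.log_div (by norm_num) (by norm_num), Real.log_pow]
    norm_num
  have e2 : Real.log ((37 : ℝ) / 10000) = - (8 * Real.log 2 + Real.log (10000 / 9472)) := by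
    have : (37 : ℝ) / 10000 = (2 ^ 8 * (10000 / 9472))⁻¹ := by norm_num
    rw [this, Real.log_inv, Real.log_mul (by norm_num) (by norm_num), Real.log_pow]
    norm_num
  have u1 : Real.log (1 + (857 : ℝ) / 10000) ≤ 82226 / 1000000 := by
    apply log_le_num 6 (by norm_num) (by norm_num)
    norm_num [Finset.sum_range_succ, Nat.factorial]
  have l1 : (31564 : ℝ) / 100000 ≤ Real.log (13712 / 10000) := by
    refine le_trans ?_ (le_log_num (x := 402495 / 10000000) 8 (by norm_num) (by norm_num))
    norm_num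
  have l2 : (36931 : ℝ) / 10000000 ≤ Real.log (1 + 37 / 10000) := by
    refine le_trans ?_ (le_log_num (x := 37 / 10000) 1 (by norm_num) (by norm_num))
    norm_num
  have l3 : (541 : ℝ) / 10000 ≤ Real.log (10000 / 9472) := by
    refine le_trans ?_ (le_log_num (x := 557 / 10000) 1 (by norm_num) (by norm_num))
    norm_num
  rw [gS, gS, e1, e2]
  linarith

theorem gS_mono {s t : ℝ} (hs : 0 < s) (hst : s ≤ t) : gS s ≤ gS t := by
  have hmono : MonotoneOn gS (Set.Ici s) := by
    apply monotoneOn_of_deriv_nonneg (convex_Ici s) gS_continuous.continuousOn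
    · intro x hx
      rw [interior_Ici] at hx
      have hx0 : 0 < x := lt_trans hs hx
      unfold gS
      apply DifferentiableAt.differentiableWithinAt
      apply DifferentiableAt.sub
      · apply DifferentiableAt.mul (by fun_prop)
        exact DifferentiableAt.log (by fun_prop) (by positivity)
      · exact differentiableAt_id.mul (Real.differentiableAt_log hx0.ne')
    · intro x hx
      rw [interior_Ici] at hx
      have hx0 : 0 < x := lt_trans hs hx
      have hd1 : HasDerivAt (fun t : ℝ => 1 + t) 1 x := (hasDerivAt_id x).const_add 1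
      have hd2 : HasDerivAt (fun t : ℝ => (1 + t) * Real.log (1 + t))
          (1 * Real.log (1 + x) + (1 + x) * (1 / (1 + x))) x :=
        hd1.mul (hd1.log (by positivity))
      have hd3 : HasDerivAt (fun t : ℝ => t * Real.log t)
          (1 * Real.log x + x * x⁻¹) x :=
        (hasDerivAt_id x).mul (Real.hasDerivAt_log hx0.ne')
      have hd4 : HasDerivAt gS (1 * Real.log (1 + x) + (1 + x) * (1 / (1 + x)) -
          (1 * Real.log x + x * x⁻¹)) x := hd2.sub hd3
      rw [hd4.deriv]
      have h1 : (1 + x) * (1 / (1 + x)) = 1 := by field_simp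
      have h2 : x * x⁻¹ = 1 := by field_simp
      have h3 : Real.log x ≤ Real.log (1 + x) := Real.log_le_log hx0 (by linarith)
      rw [h1, h2]
      linarith
  exact hmono (Set.self_mem_Ici) hst hst

/-- The Kabatiansky-Levenshtein exponent at `60` degrees is larger than `0.4014`. -/
theorem kl_value : 4014 / 10000 * Real.log 2 < gS ((2 / Real.sqrt 3 - 1) / 2) := by
  have h2a := Real.log_two_gt_d9
  have h2b := Real.log_two_lt_d9
  have hs : Real.sqrt 3 < 17320509 / 10000000 := by
    rw [Real.sqrt_lt' (by norm_num)]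
    norm_num
  have hs0 : 0 < Real.sqrt 3 := Real.sqrt_pos.mpr (by norm_num)
  have hκ : (7735 : ℝ) / 100000 ≤ (2 / Real.sqrt 3 - 1) / 2 := by
    have h1 : (11547 : ℝ) / 10000 ≤ 2 / Real.sqrt 3 := by
      rw [le_div_iff₀ hs0]
      linarith
    linarith
  refine lt_of_lt_of_le ?_ (gS_mono (by norm_num) hκ)
  have e1 : Real.log ((7735 : ℝ) / 100000) = Real.log (12376 / 10000) - 4 * Real.log 2 := by
    have : (7735 : ℝ) / 100000 = 12376 / 10000 / 2 ^ 4 := by norm_num
    rw [this, Real.log_div (by norm_num) (by norm_num), Real.log_pow]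
    norm_num
  have u1 : Real.log ((12376 : ℝ) / 10000) ≤ 213175 / 1000000 := by
    apply log_le_num 8 (by norm_num) (by norm_num)
    norm_num [Finset.sum_range_succ, Nat.factorial]
  have l1 : (74503 : ℝ) / 1000000 ≤ Real.log (1 + 7735 / 100000) := by
    refine le_trans ?_ (le_log_num (x := 93565 / 10000000) 8 (by norm_num) (by norm_num))
    norm_num
  rw [gS, e1]
  linarith

end Pool.Agent.Lib.MP_b2bfca_co
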